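import Pool.Agent.Lib.MP_1a91b9_ntK2.D.DAlgG

/-!
# MP_1a91b9_nt (cubic twists, all classes), part D: the upper bounds
-/

set_option autoImplicit false

namespace Pool.Agent.Lib.MP_1a91b9_ntK.Da

open Finset Pool.Agent.Lib.MP_1a91b9_ntH

noncomputable section

variable {ι : Type} [DecidableEq ι]

theorem dens_three_upper {A : ℕ → Finset (Finset ι)} {kc : Finset ι → ℕ}
    (hp : ∀ S, ∃ r, kc S = 3 ^ r) (h3 : ∀ S, S ≠ ∅ → kc S ≠ 1)
    (hm : ∀ k, MF3 A kc (fun x => x ^ k) (3 ^ k * Nk3 k)) {κ : ℝ} (hκ : cinf3 < κ)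
    (ε : ℝ) (hε : 0 < ε) : ∃ X₀ : ℕ, ∀ X : ℕ, X₀ ≤ X →
      (((A X).filter fun S => kc S = 3).card : ℝ) ≤ κ * (A X).card + ε * X := by
  set kz : Finset ι → ℕ := fun S => if S = ∅ then 1 else kc S / 3 with hkz
  have hmul : ∀ S, S ≠ ∅ → kc S = 3 * kz S := by
    intro S hS
    obtain ⟨r, hr⟩ := hp S
    have h1 := h3 S hS
    simp only [hkz, if_neg hS]
    rw [hr] at h1 ⊢
    rcases r with _ | r
    · exact absurd (pow_zero 3) h1
    · rw [pow_succ']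
      omega
  have hpz : ∀ S, ∃ r, kz S = 3 ^ r := by
    intro S
    by_cases hS : S = ∅
    · exact ⟨0, by simp only [hkz, if_pos hS, pow_zero]⟩
    · obtain ⟨r, hr⟩ := hp S
      have h1 := h3 S hS
      have h2 := hmul S hS
      rw [hr] at h1 h2
      rcases r with _ | r
      · exact absurd (pow_zero 3) h1
      · rw [pow_succ'] at h2
        exact ⟨r, by omega⟩
  have hmz : ∀ k, MF3 A kz (fun x => x ^ k) (Nk3 k) := by
    intro k δ hδ
    obtain ⟨X0, h0⟩ := hm k (δ / 2) (by positivity)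
    set C : ℝ := 3 ^ k + (kc ∅ : ℝ) ^ k with hC
    obtain ⟨X1, hX1⟩ := exists_nat_gt (2 * C / δ)
    refine ⟨max X0 X1, fun X hX => ?_⟩
    have h2 := h0 X (le_trans (le_max_left _ _) hX)
    have h4 : C ≤ δ / 2 * X := by
      have h4 : (X1 : ℝ) ≤ X := by exact_mod_cast le_trans (le_max_right _ _) hX
      have h5 := hX1.le.trans h4
      rw [div_le_iff₀ hδ] at h5
      linarith
    have hk : (1 : ℝ) ≤ 3 ^ k := one_le_pow₀ (by norm_num)
    have h6 : |3 ^ k * ∑ S ∈ A X, (kz S : ℝ) ^ k - ∑ S ∈ A X, (kc S : ℝ) ^ k| ≤ C := by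
      rw [mul_sum, ← sum_sub_distrib]
      have h7 : ∀ S ∈ A X, S ≠ ∅ → 3 ^ k * (kz S : ℝ) ^ k - (kc S : ℝ) ^ k = 0 := by
        intro S _ hS
        rw [hmul S hS]
        push_cast
        rw [mul_pow, sub_self]
      have h8 : ∑ S ∈ A X, (3 ^ k * (kz S : ℝ) ^ k - (kc S : ℝ) ^ k) =
          if (∅ : Finset ι) ∈ A X then 3 ^ k * (kz ∅ : ℝ) ^ k - (kc ∅ : ℝ) ^ k else 0 := by
        split_ifs with hm
        · exact sum_eq_single_of_mem ∅ hm fun S hS hne => h7 S hS hne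
        · exact sum_eq_zero fun S hS => h7 S hS fun h => hm (h ▸ hS)
      rw [h8]
      have h9 : (kz ∅ : ℝ) = 1 := by simp [hkz]
      split_ifs
      · rw [h9, one_pow, mul_one, hC]
        refine (abs_sub _ _).trans ?_
        rw [abs_of_nonneg (by positivity : (0 : ℝ) ≤ 3 ^ k),
          abs_of_nonneg (by positivity : (0 : ℝ) ≤ (kc ∅ : ℝ) ^ k)]
      · rw [abs_zero, hC]
        positivity
    have h9 : |3 ^ k * (∑ S ∈ A X, (kz S : ℝ) ^ k - Nk3 k * (A X).card)| ≤ δ * X := by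
      have e : 3 ^ k * (∑ S ∈ A X, (kz S : ℝ) ^ k - Nk3 k * (A X).card) =
          (3 ^ k * ∑ S ∈ A X, (kz S : ℝ) ^ k - ∑ S ∈ A X, (kc S : ℝ) ^ k) +
          (∑ S ∈ A X, (kc S : ℝ) ^ k - (3 ^ k * Nk3 k) * (A X).card) := by ring
      rw [e]
      refine (abs_add_le _ _).trans ?_
      linarith
    rw [abs_mul, abs_of_pos (by positivity : (0 : ℝ) < 3 ^ k)] at h9
    exact (le_mul_of_one_le_left (abs_nonneg _) hk).trans h9
  obtain ⟨X0, h0⟩ := dens3_upper hpz hmz hκ (ε / 2) (by positivity)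
  obtain ⟨X1, hX1⟩ := exists_nat_gt (2 / ε)
  refine ⟨max X0 X1, fun X hX => ?_⟩
  have h1 := h0 X (le_trans (le_max_left _ _) hX)
  have h2 : (1 : ℝ) ≤ ε / 2 * X := by
    have h4 : (X1 : ℝ) ≤ X := by exact_mod_cast le_trans (le_max_right _ _) hX
    have h5 := hX1.le.trans h4
    rw [div_le_iff₀ hε] at h5
    linarith
  have h3 : (A X).filter (fun S => kc S = 3) ⊆ insert ∅ ((A X).filter fun S => kz S = 1) := by
    intro S hS
    rw [mem_filter] at hS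
    rw [mem_insert, mem_filter]
    by_cases h : S = ∅
    · exact Or.inl h
    · refine Or.inr ⟨hS.1, ?_⟩
      have h5 := hmul S h
      rw [hS.2] at h5
      omega
  have h4 := (card_le_card h3).trans (card_insert_le _ _)
  have h5 : (((A X).filter (fun S => kc S = 3)).card : ℝ) ≤
      ((A X).filter fun S => kz S = 1).card + 1 := by exact_mod_cast h4
  linarith

variable [PS ι]

/-- The upper bound. -/
theorem density9_upper {D : Dat3b ι} (hD : D.OKb) {C₂ : ℝ}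
    (hC₂ : ∀ Y : ℕ, ((Sx ι Y).card : ℝ) ≤ C₂ * Y) {τ σ : ZMod 3} (h : τ ≠ 0 ∨ σ ≠ 0)
    (T : Finset ι) {κ : ℝ} (hκ : cinf3 < κ) (ε : ℝ) (hε : 0 < ε) :
    ∃ X₀ : ℕ, ∀ X : ℕ, X₀ ≤ X → ∀ α β : ZMod 3,
      (((SA9 D T α β X).filter fun S => ((D.tw τ σ).N (eT T) 1 (S ∪ T)).det ≠ 0).card : ℝ) ≤
        κ * ((SA9 D T α β X).card : ℝ) + ε * X := by
  have hτσ : ¬ (τ = 0 ∧ σ = 0) := fun h' => h.elim (fun h1 => h1 h'.1) fun h1 => h1 h'.2
  have hm : ∀ α β k, MF3 (SA9 D T α β) (fun S => (D.tw τ σ).kc (eT T) 1 (S ∪ T))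
      (fun x => x ^ k) (Nk3 k) := fun α β k δ hδ => by
    refine MoG.mean hD (MoG_N hD hC₂ τ σ T k) α β ?_ δ hδ
    simp only [if_neg hτσ]
    rw [sum_single]
    push_cast
    rfl
  choose X0 h0 using fun α β => dens3_upper (fun S => kc3_pow (D.tw τ σ) (eT T) 1 (S ∪ T))
    (hm α β) hκ ε hε
  refine ⟨∑ α, ∑ β, X0 α β, fun X hX α β => ?_⟩
  have hX1 : X0 α β ≤ X := ((single_le_sum (f := fun β => X0 α β) (fun _ _ => Nat.zero_le _)
      (mem_univ β)).trans (single_le_sum (f := fun α => ∑ β, X0 α β) (fun _ _ => Nat.zero_le _)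
        (mem_univ α))).trans hX
  refine le_trans (le_of_eq ?_) (h0 α β X hX1)
  congr 2
  exact filter_congr fun S _ => (kc3_eq_one (D.tw τ σ) (eT T) 1 (S ∪ T)).symm

/-- The upper bound. -/
theorem density9_zero_upper {D : Dat3b ι} (hD : D.OKb) {C₂ : ℝ}
    (hC₂ : ∀ Y : ℕ, ((Sx ι Y).card : ℝ) ≤ C₂ * Y)
    (T : Finset ι) {κ : ℝ} (hκ : cinf3 < κ) (ε : ℝ) (hε : 0 < ε) :
    ∃ X₀ : ℕ, ∀ X : ℕ, X₀ ≤ X → ∀ α β : ZMod 3,
      (((SA9 D T α β X).filter fun S => D.kc (eT T) 0 (S ∪ T) = 3).card : ℝ) ≤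
        κ * ((SA9 D T α β X).card : ℝ) + ε * X := by
  have hkc : ∀ R : Finset ι, (D.tw 0 0).kc (eT T) 1 R = D.kc (eT T) 0 R := by
    intro R
    have h1 : (D.tw 0 0).N (eT T) 1 R = D.N (eT T) 0 R := by
      funext i j
      rw [Dat3.N, Dat3.N]
      show (if i = j then eT T i * (1 * (0 * D.a i + 0 * D.b i) + _) else _) =
        (if i = j then eT T i * (0 * D.a i + _) else _)
      simp only [zero_mul, add_zero, mul_zero]
      rfl
    rw [Dat3.kc, Dat3.kc, h1]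
  have hm : ∀ α β k, MF3 (SA9 D T α β) (fun S => D.kc (eT T) 0 (S ∪ T))
      (fun x => x ^ k) (3 ^ k * Nk3 k) := fun α β k δ hδ => by
    have h1 := MoG.mean hD (MoG_N hD hC₂ 0 0 T k) α β (v := 3 ^ k * (Nk3 k : ℝ)) (by
      simp only [and_self, if_true]
      rw [sum_single]
      push_cast
      rfl) δ hδ
    simp only [hkc] at h1
    exact h1
  have h3 : ∀ S : Finset ι, S ≠ ∅ → D.kc (eT T) 0 (S ∪ T) ≠ 1 := fun S hS => by
    have := two_le_kc3 D.toDat3 (eT T) (eT_mul T) (R := S ∪ T) fun h => hS (union_eq_empty.1 h).1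
    omega
  choose X0 h0 using fun α β => dens_three_upper (fun S => kc3_pow D.toDat3 (eT T) 0 (S ∪ T)) h3
    (hm α β) hκ ε hε
  refine ⟨∑ α, ∑ β, X0 α β, fun X hX α β => ?_⟩
  have hX1 : X0 α β ≤ X := ((single_le_sum (f := fun β => X0 α β) (fun _ _ => Nat.zero_le _)
      (mem_univ β)).trans (single_le_sum (f := fun α => ∑ β, X0 α β) (fun _ _ => Nat.zero_le _)
        (mem_univ α))).trans hX
  exact h0 α β X hX1

/-- The upper bound. -/
theorem density9_B_upper {D : Dat3b ι} (hD : D.OKb) {C₂ : ℝ}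
    (hC₂ : ∀ Y : ℕ, ((Sx ι Y).card : ℝ) ≤ C₂ * Y) (τ : ZMod 3) {σ : ZMod 3} (hσ : σ ≠ 0)
    (ρ : ZMod 3) (T : Finset ι) {κ : ℝ} (hκ : cinf3 < κ) (ε : ℝ) (hε : 0 < ε) :
    ∃ X₀ : ℕ, ∀ X : ℕ, X₀ ≤ X → ∀ α β : ZMod 3,
      (((SA9 D T α β X).filter fun S => (D.NB (eT T) τ σ ρ (S ∪ T)).det ≠ 0).card : ℝ) ≤
        κ * ((SA9 D T α β X).card : ℝ) + ε * X := by
  have hm : ∀ α β k, MF3 (SA9 D T α β) (fun S => D.kB (eT T) τ σ ρ (S ∪ T))
      (fun x => x ^ k) (Nk3 k) := fun α β k δ hδ => by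
    have h1 := MoG.mean hD (MoG_B hD hC₂ τ hσ ρ 0 T k) α β (v := (Nk3 k : ℝ)) (by
      rw [sum_single]
      push_cast
      rfl) δ hδ
    simp only [zero_mul, add_zero] at h1
    exact h1
  choose X0 h0 using fun α β => dens3_upper (fun S => D.kB_pow (eT T) τ σ ρ (S ∪ T))
    (hm α β) hκ ε hε
  refine ⟨∑ α, ∑ β, X0 α β, fun X hX α β => ?_⟩
  have hX1 : X0 α β ≤ X := ((single_le_sum (f := fun β => X0 α β) (fun _ _ => Nat.zero_le _)
      (mem_univ β)).trans (single_le_sum (f := fun α => ∑ β, X0 α β) (fun _ _ => Nat.zero_le _)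
        (mem_univ α))).trans hX
  refine le_trans (le_of_eq ?_) (h0 α β X hX1)
  congr 2
  exact filter_congr fun S _ => (D.kB_eq_one (eT T) τ σ ρ (S ∪ T)).symm

/-- The upper bound. -/
theorem density9_B0_upper {D : Dat3b ι} (hD : D.OKb) {C₂ : ℝ}
    (hC₂ : ∀ Y : ℕ, ((Sx ι Y).card : ℝ) ≤ C₂ * Y)
    (ρ : ZMod 3) (T : Finset ι) {κ : ℝ} (hκ : cinf3 < κ) (ε : ℝ) (hε : 0 < ε) :
    ∃ X₀ : ℕ, ∀ X : ℕ, X₀ ≤ X → ∀ β : ZMod 3,
      (((SA9 D T 0 β X).filter fun S => D.kB (eT T) 0 0 ρ (S ∪ T) = 3).card : ℝ) ≤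
        κ * ((SA9 D T 0 β X).card : ℝ) + ε * X := by
  classical
  -- outside the class the kernel size is replaced by `3`
  set kc : Finset ι → ℕ := fun S =>
    if D.cA (eT T) (S ∪ T) = 0 then D.kB (eT T) 0 0 ρ (S ∪ T) else 3 with hkc
  have hin : ∀ β X, ∀ S ∈ SA9 D T 0 β X, kc S = D.kB (eT T) 0 0 ρ (S ∪ T) := by
    intro β X S hS
    rw [SA9, mem_filter] at hS
    simp only [hkc, if_pos hS.2.1]
  have hm : ∀ β k, MF3 (SA9 D T 0 β) kc (fun x => x ^ k) (3 ^ k * Nk3 k) := fun β k δ hδ => by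
    have h1 := MoG.mean hD (MoG_B0 hD hC₂ ρ 0 T k) 0 β (v := 3 ^ k * (Nk3 k : ℝ)) (by
      rw [sum_hard]
      push_cast
      ring) δ hδ
    simp only [zero_mul, add_zero] at h1
    obtain ⟨X0, h0⟩ := h1
    refine ⟨X0, fun X hX => ?_⟩
    have h2 := h0 X hX
    rw [sum_congr rfl fun S hS => by rw [hin β X S hS]]
    exact h2
  have hp : ∀ S, ∃ r, kc S = 3 ^ r := by
    intro S
    simp only [hkc]
    split_ifs
    · exact D.kB_pow (eT T) 0 0 ρ (S ∪ T)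
    · exact ⟨1, rfl⟩
  have h3 : ∀ S : Finset ι, S ≠ ∅ → kc S ≠ 1 := fun S hS => by
    simp only [hkc]
    split_ifs with hA
    · exact D.kB_ne_one (eT T) (eT_mul T) ρ (fun h => hS (union_eq_empty.1 h).1) hA
    · omega
  choose X0 h0 using fun β => dens_three_upper hp h3 (hm β) hκ ε hε
  refine ⟨∑ β, X0 β, fun X hX β => ?_⟩
  have hX1 : X0 β ≤ X := (single_le_sum (f := fun β => X0 β) (fun _ _ => Nat.zero_le _)
      (mem_univ β)).trans hX
  refine le_trans (le_of_eq ?_) (h0 β X hX1)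
  congr 2
  exact filter_congr fun S hS => by rw [hin β X S hS]

end

end Pool.Agent.Lib.MP_1a91b9_ntK.Da
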