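import Pool.Agent.Lib.MP_1a91b9_ntK2.D.ClsG
import Pool.Agent.Lib.MP_1a91b9_ntK.D.K0

/-!
# MP_1a91b9_nt (cubic twists, all classes), part D: the densities
-/

set_option autoImplicit false

namespace Pool.Agent.Lib.MP_1a91b9_ntK

open Finset Pool.Agent.Lib.MP_1a91b9_ntH

section Mat

variable {ι : Type} [DecidableEq ι]

/-- The matrix of part D is the matrix of part A. -/
theorem Dat3b.N_eq_NE (D : Dat3b ι) (e : ι → ZMod 3) (τ σ : ZMod 3) (R : Finset ι) :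
    (D.tw τ σ).N e 1 R = NE D.s (fun q => τ * D.a q + σ * D.b q) e R := by
  rw [Dat3.N_eq_NE]
  have h1 : (fun q => 1 * (D.tw τ σ).a q) = fun q => τ * D.a q + σ * D.b q := by
    funext q
    rw [one_mul]
    rfl
  rw [h1]
  rfl

theorem Dat3b.NB_eq (D : Dat3b ι) (e : ι → ZMod 3) (τ σ κ : ZMod 3) (R : Finset ι) :
    D.NB e τ σ κ R = Matrix.fromBlocks (NE D.s (fun q => τ * D.a q + σ * D.b q) e R)
      (Matrix.of fun j _ => D.a j) (Matrix.of fun _ j => D.a j) (Matrix.of fun _ _ => κ) := by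
  rw [Dat3b.NB, D.N_eq_NE]

theorem Dat3b.cA_union (D : Dat3b ι) {S T : Finset ι} (h : Disjoint S T) :
    D.cA (eT T) (S ∪ T) = ∑ q ∈ S, D.a q - ∑ q ∈ T, D.a q := by
  rw [Dat3b.cA, sum_union h, sub_eq_add_neg, ← sum_neg_distrib]
  congr 1
  · exact sum_congr rfl fun q hq => by
      rw [show eT T q = 1 from if_neg (disjoint_left.1 h hq), one_mul]
  · exact sum_congr rfl fun q hq => by rw [show eT T q = -1 from if_pos hq, neg_one_mul]

theorem Dat3b.cB_union (D : Dat3b ι) {S T : Finset ι} (h : Disjoint S T) :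
    D.cB (eT T) (S ∪ T) = ∑ q ∈ S, D.b q - ∑ q ∈ T, D.b q := by
  rw [Dat3b.cB, sum_union h, sub_eq_add_neg, ← sum_neg_distrib]
  congr 1
  · exact sum_congr rfl fun q hq => by
      rw [show eT T q = 1 from if_neg (disjoint_left.1 h hq), one_mul]
  · exact sum_congr rfl fun q hq => by rw [show eT T q = -1 from if_pos hq, neg_one_mul]

theorem Dat3b.kB_pow (D : Dat3b ι) (e : ι → ZMod 3) (τ σ κ : ZMod 3) (R : Finset ι) :
    ∃ r : ℕ, D.kB e τ σ κ R = 3 ^ r := by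
  have h1 : D.kB e τ σ κ R = Nat.card (LinearMap.ker (D.NB e τ σ κ R).mulVecLin) := by
    rw [Dat3b.kB, ← Nat.card_eq_fintype_card]
    rfl
  have h2 := Module.natCard_eq_pow_finrank (K := ZMod 3)
    (V := LinearMap.ker (D.NB e τ σ κ R).mulVecLin)
  rw [← h1, Nat.card_eq_fintype_card, ZMod.card] at h2
  exact ⟨_, h2⟩

theorem Dat3b.kB_eq_one (D : Dat3b ι) (e : ι → ZMod 3) (τ σ κ : ZMod 3) (R : Finset ι) :
    D.kB e τ σ κ R = 1 ↔ (D.NB e τ σ κ R).det ≠ 0 := by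
  rw [Dat3b.kB, Fintype.card_eq_one_iff, ne_eq, ← Matrix.exists_mulVec_eq_zero_iff]
  constructor
  · rintro ⟨x, hx⟩ ⟨v, hv, hv0⟩
    have h1 := hx ⟨v, hv0⟩
    have h2 := hx ⟨0, Matrix.mulVec_zero _⟩
    rw [← h2] at h1
    exact hv (congrArg Subtype.val h1)
  · intro h
    refine ⟨⟨0, Matrix.mulVec_zero _⟩, fun y => ?_⟩
    by_contra hne
    exact h ⟨y.1, fun h0 => hne (Subtype.ext h0), y.2⟩

/-- In the class `∑ e a = 0` the multiples of `(e, 0)` are in the kernel of the bordered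
Laplacian. -/
theorem Dat3b.NB_mulVec_e (D : Dat3b ι) (e : ι → ZMod 3) (he : ∀ i, e i * e i = 1)
    (κ : ZMod 3) (R : Finset ι) (hA : D.cA e R = 0) (c : ZMod 3) :
    (D.NB e 0 0 κ R).mulVec (Sum.elim (fun j => c * e j) fun _ => 0) = 0 := by
  have h1 : (D.tw 0 0).N e 1 R = (D.tw 0 0).N e 0 R := by
    funext i j
    rw [Dat3.N, Dat3.N]
    show (if i = j then e i * (1 * (0 * D.a i + 0 * D.b i) + _) else _) =
      (if i = j then e i * (0 * (0 * D.a i + 0 * D.b i) + _) else _)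
    simp only [zero_mul, add_zero, mul_zero]
  have h2 := Da.N_zero_mulVec (D.tw 0 0) e he R
  have h3 : (fun j : R => c * e j) = c • fun j : R => e j := rfl
  rw [Dat3b.NB, Matrix.fromBlocks_mulVec]
  funext x
  rcases x with j | j
  · show ((D.tw 0 0).N e 1 R).mulVec (fun j : R => c * e j) j +
      ∑ u : Unit, D.a j * 0 = 0
    rw [h1, h3, Matrix.mulVec_smul, h2, smul_zero]
    simp
  · show ∑ j : R, D.a j * (c * e j) + ∑ u : Unit, κ * 0 = 0
    have h4 : ∑ j : R, D.a j * (c * e j) = c * D.cA e R := by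
      rw [Dat3b.cA, mul_sum, ← sum_coe_sort R fun q => c * (e q * D.a q)]
      exact sum_congr rfl fun j _ => by ring
    rw [h4, hA]
    simp

theorem Dat3b.kB_ne_one (D : Dat3b ι) (e : ι → ZMod 3) (he : ∀ i, e i * e i = 1)
    (κ : ZMod 3) {R : Finset ι} (hR : R ≠ ∅) (hA : D.cA e R = 0) : D.kB e 0 0 κ R ≠ 1 := by
  intro h
  rw [Dat3b.kB, Fintype.card_eq_one_iff] at h
  obtain ⟨x, hx⟩ := h
  obtain ⟨i, hi⟩ := nonempty_iff_ne_empty.2 hR
  have h1 := hx ⟨_, D.NB_mulVec_e e he κ R hA 1⟩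
  have h2 := hx ⟨0, Matrix.mulVec_zero _⟩
  rw [← h2] at h1
  have h3 : 1 * e i = 0 := congrFun (congrArg Subtype.val h1) (Sum.inl ⟨i, hi⟩)
  have h4 := he i
  rw [one_mul] at h3
  rw [h3, mul_zero] at h4
  exact zero_ne_one h4

/-- If the kernel of the bordered Laplacian has three elements, it consists of the multiples of
`(e, 0)`. -/
theorem Dat3b.ker_NB (D : Dat3b ι) (e : ι → ZMod 3) (he : ∀ i, e i * e i = 1)
    (κ : ZMod 3) {R : Finset ι} (hR : R ≠ ∅) (hA : D.cA e R = 0) (h : D.kB e 0 0 κ R = 3)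
    (v : R ⊕ Unit → ZMod 3) (hv : (D.NB e 0 0 κ R).mulVec v = 0) :
    ∃ c : ZMod 3, (∀ i : R, v (Sum.inl i) = c * e i) ∧ v (Sum.inr ()) = 0 := by
  let f : ZMod 3 → {v : R ⊕ Unit → ZMod 3 // (D.NB e 0 0 κ R).mulVec v = 0} := fun c =>
    ⟨_, D.NB_mulVec_e e he κ R hA c⟩
  have hf : Function.Injective f := by
    intro c c' hc
    obtain ⟨i, hi⟩ := nonempty_iff_ne_empty.2 hR
    have h1 : c * e i = c' * e i := congrFun (congrArg Subtype.val hc) (Sum.inl ⟨i, hi⟩)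
    calc c = c * e i * e i := by rw [mul_assoc, he, mul_one]
      _ = c' := by rw [h1, mul_assoc, he, mul_one]
  have hb : Function.Bijective f := by
    rw [Fintype.bijective_iff_injective_and_card]
    refine ⟨hf, ?_⟩
    rw [ZMod.card]
    exact h.symm
  obtain ⟨c, hc⟩ := hb.2 ⟨v, hv⟩
  have h1 := congrArg Subtype.val hc
  exact ⟨c, fun i => (congrFun h1 (Sum.inl i)).symm, (congrFun h1 (Sum.inr ())).symm⟩

end Mat

namespace Da

noncomputable section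

variable {ι : Type} [DecidableEq ι] [PS ι]

theorem sum_single (α β : ZMod 3) (v : ℂ) :
    ∑ c : ZMod 3, ∑ c' : ZMod 3, e3 (-(c * α + c' * β)) *
      (if c = 0 ∧ c' = 0 then v else 0) = v := by
  rw [Fintype.sum_eq_single (0 : ZMod 3), Fintype.sum_eq_single (0 : ZMod 3)]
  · simp [e3_zero]
  · intro c' hc'
    rw [if_neg fun h => hc' h.2, mul_zero]
  · intro c hc
    exact sum_eq_zero fun c' _ => by rw [if_neg fun h => hc h.1, mul_zero]

/-- **All classes, `N_{τ,σ}`**: the lower density of the `S` with `det N ≠ 0`. -/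
theorem density9 {D : Dat3b ι} (hD : D.OKb) {C₂ : ℝ}
    (hC₂ : ∀ Y : ℕ, ((Sx ι Y).card : ℝ) ≤ C₂ * Y) {τ σ : ZMod 3} (h : τ ≠ 0 ∨ σ ≠ 0)
    (T : Finset ι) {κ : ℝ} (hκ : κ < cinf3) (ε : ℝ) (hε : 0 < ε) :
    ∃ X₀ : ℕ, ∀ X : ℕ, X₀ ≤ X → ∀ α β : ZMod 3,
      κ * ((SA9 D T α β X).card : ℝ) - ε * X ≤
        ((SA9 D T α β X).filter fun S => ((D.tw τ σ).N (eT T) 1 (S ∪ T)).det ≠ 0).card := by
  have hτσ : ¬ (τ = 0 ∧ σ = 0) := fun h' => h.elim (fun h1 => h1 h'.1) fun h1 => h1 h'.2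
  have hm : ∀ α β k, MF3 (SA9 D T α β) (fun S => (D.tw τ σ).kc (eT T) 1 (S ∪ T))
      (fun x => x ^ k) (Nk3 k) := fun α β k δ hδ => by
    refine MoG.mean hD (MoG_N hD hC₂ τ σ T k) α β ?_ δ hδ
    simp only [if_neg hτσ]
    rw [sum_single]
    push_cast
    rfl
  choose X0 h0 using fun α β => dens3_lower (fun S => kc3_pow (D.tw τ σ) (eT T) 1 (S ∪ T))
    (hm α β) hκ ε hε
  refine ⟨∑ α, ∑ β, X0 α β, fun X hX α β => ?_⟩
  have hX1 : X0 α β ≤ X := ((single_le_sum (f := fun β => X0 α β) (fun _ _ => Nat.zero_le _)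
      (mem_univ β)).trans (single_le_sum (f := fun α => ∑ β, X0 α β) (fun _ _ => Nat.zero_le _)
        (mem_univ α))).trans hX
  refine (h0 α β X hX1).trans (le_of_eq ?_)
  congr 2
  exact filter_congr fun S _ => kc3_eq_one (D.tw τ σ) (eT T) 1 (S ∪ T)

/-- **All classes, the Laplacian**: the lower density of the `S` whose matrix has a kernel with
three elements. -/
theorem density9_zero {D : Dat3b ι} (hD : D.OKb) {C₂ : ℝ}
    (hC₂ : ∀ Y : ℕ, ((Sx ι Y).card : ℝ) ≤ C₂ * Y)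
    (T : Finset ι) {κ : ℝ} (hκ : κ < cinf3) (ε : ℝ) (hε : 0 < ε) :
    ∃ X₀ : ℕ, ∀ X : ℕ, X₀ ≤ X → ∀ α β : ZMod 3,
      κ * ((SA9 D T α β X).card : ℝ) - ε * X ≤
        ((SA9 D T α β X).filter fun S => D.kc (eT T) 0 (S ∪ T) = 3).card := by
  have hkc : ∀ R : Finset ι, (D.tw 0 0).kc (eT T) 1 R = D.kc (eT T) 0 R := by
    intro R
    have h1 : (D.tw 0 0).N (eT T) 1 R = D.N (eT T) 0 R := by
      funext i j
      rw [Dat3.N, Dat3.N]
      show (if i = j then eT T i * (1 * (0 * D.a i + 0 * D.b i) + _) else _) =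
        (if i = j then eT T i * (0 * D.a i + _) else _)
      simp only [zero_mul, add_zero, mul_zero]
      rfl
    rw [Dat3.kc, Dat3.kc, h1]
  have hm : ∀ α β k, MF3 (SA9 D T α β) (fun S => D.kc (eT T) 0 (S ∪ T))
      (fun x => x ^ k) (3 ^ k * Nk3 k) := fun α β k δ hδ => by
    have h1 := MoG.mean hD (MoG_N hD hC₂ 0 0 T k) α β (v := 3 ^ k * (Nk3 k : ℝ)) (by
      simp only [and_self, if_true]
      rw [sum_single]
      push_cast
      rfl) δ hδ
    simp only [hkc] at h1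
    exact h1
  have h3 : ∀ S : Finset ι, S ≠ ∅ → D.kc (eT T) 0 (S ∪ T) ≠ 1 := fun S hS => by
    have := two_le_kc3 D.toDat3 (eT T) (eT_mul T) (R := S ∪ T) fun h => hS (union_eq_empty.1 h).1
    omega
  choose X0 h0 using fun α β => dens_three (fun S => kc3_pow D.toDat3 (eT T) 0 (S ∪ T)) h3
    (hm α β) hκ ε hε
  refine ⟨∑ α, ∑ β, X0 α β, fun X hX α β => ?_⟩
  have hX1 : X0 α β ≤ X := ((single_le_sum (f := fun β => X0 α β) (fun _ _ => Nat.zero_le _)
      (mem_univ β)).trans (single_le_sum (f := fun α => ∑ β, X0 α β) (fun _ _ => Nat.zero_le _)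
        (mem_univ α))).trans hX
  exact h0 α β X hX1

/-- **All classes, bordered matrices with `σ ≠ 0`**: the lower density of the `S` with
`det ≠ 0`. -/
theorem density9_B {D : Dat3b ι} (hD : D.OKb) {C₂ : ℝ}
    (hC₂ : ∀ Y : ℕ, ((Sx ι Y).card : ℝ) ≤ C₂ * Y) (τ : ZMod 3) {σ : ZMod 3} (hσ : σ ≠ 0)
    (ρ : ZMod 3) (T : Finset ι) {κ : ℝ} (hκ : κ < cinf3) (ε : ℝ) (hε : 0 < ε) :
    ∃ X₀ : ℕ, ∀ X : ℕ, X₀ ≤ X → ∀ α β : ZMod 3,
      κ * ((SA9 D T α β X).card : ℝ) - ε * X ≤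
        ((SA9 D T α β X).filter fun S => (D.NB (eT T) τ σ ρ (S ∪ T)).det ≠ 0).card := by
  have hm : ∀ α β k, MF3 (SA9 D T α β) (fun S => D.kB (eT T) τ σ ρ (S ∪ T))
      (fun x => x ^ k) (Nk3 k) := fun α β k δ hδ => by
    have h1 := MoG.mean hD (MoG_B hD hC₂ τ hσ ρ 0 T k) α β (v := (Nk3 k : ℝ)) (by
      rw [sum_single]
      push_cast
      rfl) δ hδ
    simp only [zero_mul, add_zero] at h1
    exact h1
  choose X0 h0 using fun α β => dens3_lower (fun S => D.kB_pow (eT T) τ σ ρ (S ∪ T))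
    (hm α β) hκ ε hε
  refine ⟨∑ α, ∑ β, X0 α β, fun X hX α β => ?_⟩
  have hX1 : X0 α β ≤ X := ((single_le_sum (f := fun β => X0 α β) (fun _ _ => Nat.zero_le _)
      (mem_univ β)).trans (single_le_sum (f := fun α => ∑ β, X0 α β) (fun _ _ => Nat.zero_le _)
        (mem_univ α))).trans hX
  refine (h0 α β X hX1).trans (le_of_eq ?_)
  congr 2
  exact filter_congr fun S _ => D.kB_eq_one (eT T) τ σ ρ (S ∪ T)

theorem sum_hard (β : ZMod 3) (v w : ℂ) :
    ∑ c : ZMod 3, ∑ c' : ZMod 3, e3 (-(c * 0 + c' * β)) *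
      (if c' = 0 then v * ((if c = 0 then 1 else 0) + w) else 0) = v * (1 + 3 * w) := by
  have h1 : ∀ c : ZMod 3, ∑ c' : ZMod 3, e3 (-(c * 0 + c' * β)) *
      (if c' = 0 then v * ((if c = 0 then 1 else 0) + w) else 0) =
      v * ((if c = 0 then 1 else 0) + w) := by
    intro c
    rw [Fintype.sum_eq_single (0 : ZMod 3)]
    · simp [e3_zero]
    · intro c' hc'
      rw [if_neg hc', mul_zero]
  simp only [h1]
  rw [← mul_sum, sum_add_distrib, sum_ite_eq', if_pos (mem_univ _), sum_const, card_univ,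
    ZMod.card, nsmul_eq_mul]
  push_cast
  ring

/-- **The hard class, bordered Laplacian**: in the classes `(0, β)` the lower density of the `S`
whose bordered matrix has a kernel with three elements. -/
theorem density9_B0 {D : Dat3b ι} (hD : D.OKb) {C₂ : ℝ}
    (hC₂ : ∀ Y : ℕ, ((Sx ι Y).card : ℝ) ≤ C₂ * Y)
    (ρ : ZMod 3) (T : Finset ι) {κ : ℝ} (hκ : κ < cinf3) (ε : ℝ) (hε : 0 < ε) :
    ∃ X₀ : ℕ, ∀ X : ℕ, X₀ ≤ X → ∀ β : ZMod 3,
      κ * ((SA9 D T 0 β X).card : ℝ) - ε * X ≤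
        ((SA9 D T 0 β X).filter fun S => D.kB (eT T) 0 0 ρ (S ∪ T) = 3).card := by
  classical
  -- outside the class the kernel size is replaced by `3`
  set kc : Finset ι → ℕ := fun S =>
    if D.cA (eT T) (S ∪ T) = 0 then D.kB (eT T) 0 0 ρ (S ∪ T) else 3 with hkc
  have hin : ∀ β X, ∀ S ∈ SA9 D T 0 β X, kc S = D.kB (eT T) 0 0 ρ (S ∪ T) := by
    intro β X S hS
    rw [SA9, mem_filter] at hS
    simp only [hkc, if_pos hS.2.1]
  have hm : ∀ β k, MF3 (SA9 D T 0 β) kc (fun x => x ^ k) (3 ^ k * Nk3 k) := fun β k δ hδ => by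
    have h1 := MoG.mean hD (MoG_B0 hD hC₂ ρ 0 T k) 0 β (v := 3 ^ k * (Nk3 k : ℝ)) (by
      rw [sum_hard]
      push_cast
      ring) δ hδ
    simp only [zero_mul, add_zero] at h1
    obtain ⟨X0, h0⟩ := h1
    refine ⟨X0, fun X hX => ?_⟩
    have h2 := h0 X hX
    rw [sum_congr rfl fun S hS => by rw [hin β X S hS]]
    exact h2
  have hp : ∀ S, ∃ r, kc S = 3 ^ r := by
    intro S
    simp only [hkc]
    split_ifs
    · exact D.kB_pow (eT T) 0 0 ρ (S ∪ T)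
    · exact ⟨1, rfl⟩
  have h3 : ∀ S : Finset ι, S ≠ ∅ → kc S ≠ 1 := fun S hS => by
    simp only [hkc]
    split_ifs with hA
    · exact D.kB_ne_one (eT T) (eT_mul T) ρ (fun h => hS (union_eq_empty.1 h).1) hA
    · omega
  choose X0 h0 using fun β => dens_three hp h3 (hm β) hκ ε hε
  refine ⟨∑ β, X0 β, fun X hX β => ?_⟩
  have hX1 : X0 β ≤ X := (single_le_sum (f := fun β => X0 β) (fun _ _ => Nat.zero_le _)
      (mem_univ β)).trans hX
  refine (h0 β X hX1).trans (le_of_eq ?_)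
  congr 2
  exact filter_congr fun S hS => by rw [hin β X S hS]

end

end Da

end Pool.Agent.Lib.MP_1a91b9_ntK
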