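import Pool.Agent.Lib.MP_1a91b9_ntK2.D.CntG
import Pool.Agent.Lib.MP_1a91b9_ntK.D.Cls3

/-!
# MP_1a91b9_nt (cubic twists, all classes), part D: twisted moments and moments in classes
-/

set_option autoImplicit false

namespace Pool.Agent.Lib.MP_1a91b9_ntK.Da

open Finset Pool.Agent.Lib.MP_1a91b9_ntH

noncomputable section

variable {ι : Type} [DecidableEq ι]

/-! ### A general lemma for kernels with at least three elements -/

theorem dens_three {A : ℕ → Finset (Finset ι)} {kc : Finset ι → ℕ}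
    (hp : ∀ S, ∃ r, kc S = 3 ^ r) (h3 : ∀ S, S ≠ ∅ → kc S ≠ 1)
    (hm : ∀ k, MF3 A kc (fun x => x ^ k) (3 ^ k * Nk3 k)) {κ : ℝ} (hκ : κ < cinf3)
    (ε : ℝ) (hε : 0 < ε) : ∃ X₀ : ℕ, ∀ X : ℕ, X₀ ≤ X →
      κ * (A X).card - ε * X ≤ ((A X).filter fun S => kc S = 3).card := by
  set kz : Finset ι → ℕ := fun S => if S = ∅ then 1 else kc S / 3 with hkz
  have hmul : ∀ S, S ≠ ∅ → kc S = 3 * kz S := by
    intro S hS
    obtain ⟨r, hr⟩ := hp S
    have h1 := h3 S hS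
    simp only [hkz, if_neg hS]
    rw [hr] at h1 ⊢
    rcases r with _ | r
    · exact absurd (pow_zero 3) h1
    · rw [pow_succ']
      omega
  have hpz : ∀ S, ∃ r, kz S = 3 ^ r := by
    intro S
    by_cases hS : S = ∅
    · exact ⟨0, by simp only [hkz, if_pos hS, pow_zero]⟩
    · obtain ⟨r, hr⟩ := hp S
      have h1 := h3 S hS
      have h2 := hmul S hS
      rw [hr] at h1 h2
      rcases r with _ | r
      · exact absurd (pow_zero 3) h1
      · rw [pow_succ'] at h2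
        exact ⟨r, by omega⟩
  have hmz : ∀ k, MF3 A kz (fun x => x ^ k) (Nk3 k) := by
    intro k δ hδ
    obtain ⟨X0, h0⟩ := hm k (δ / 2) (by positivity)
    set C : ℝ := 3 ^ k + (kc ∅ : ℝ) ^ k with hC
    obtain ⟨X1, hX1⟩ := exists_nat_gt (2 * C / δ)
    refine ⟨max X0 X1, fun X hX => ?_⟩
    have h2 := h0 X (le_trans (le_max_left _ _) hX)
    have h4 : C ≤ δ / 2 * X := by
      have h4 : (X1 : ℝ) ≤ X := by exact_mod_cast le_trans (le_max_right _ _) hX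
      have h5 := hX1.le.trans h4
      rw [div_le_iff₀ hδ] at h5
      linarith
    have hk : (1 : ℝ) ≤ 3 ^ k := one_le_pow₀ (by norm_num)
    have h6 : |3 ^ k * ∑ S ∈ A X, (kz S : ℝ) ^ k - ∑ S ∈ A X, (kc S : ℝ) ^ k| ≤ C := by
      rw [mul_sum, ← sum_sub_distrib]
      have h7 : ∀ S ∈ A X, S ≠ ∅ → 3 ^ k * (kz S : ℝ) ^ k - (kc S : ℝ) ^ k = 0 := by
        intro S _ hS
        rw [hmul S hS]
        push_cast
        rw [mul_pow, sub_self]
      have h8 : ∑ S ∈ A X, (3 ^ k * (kz S : ℝ) ^ k - (kc S : ℝ) ^ k) =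
          if (∅ : Finset ι) ∈ A X then 3 ^ k * (kz ∅ : ℝ) ^ k - (kc ∅ : ℝ) ^ k else 0 := by
        split_ifs with hm
        · exact sum_eq_single_of_mem ∅ hm fun S hS hne => h7 S hS hne
        · exact sum_eq_zero fun S hS => h7 S hS fun h => hm (h ▸ hS)
      rw [h8]
      have h9 : (kz ∅ : ℝ) = 1 := by simp [hkz]
      split_ifs
      · rw [h9, one_pow, mul_one, hC]
        refine (abs_sub _ _).trans ?_
        rw [abs_of_nonneg (by positivity : (0 : ℝ) ≤ 3 ^ k),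
          abs_of_nonneg (by positivity : (0 : ℝ) ≤ (kc ∅ : ℝ) ^ k)]
      · rw [abs_zero, hC]
        positivity
    have h9 : |3 ^ k * (∑ S ∈ A X, (kz S : ℝ) ^ k - Nk3 k * (A X).card)| ≤ δ * X := by
      have e : 3 ^ k * (∑ S ∈ A X, (kz S : ℝ) ^ k - Nk3 k * (A X).card) =
          (3 ^ k * ∑ S ∈ A X, (kz S : ℝ) ^ k - ∑ S ∈ A X, (kc S : ℝ) ^ k) +
          (∑ S ∈ A X, (kc S : ℝ) ^ k - (3 ^ k * Nk3 k) * (A X).card) := by ring
      rw [e]
      refine (abs_add_le _ _).trans ?_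
      linarith
    rw [abs_mul, abs_of_pos (by positivity : (0 : ℝ) < 3 ^ k)] at h9
    exact (le_mul_of_one_le_left (abs_nonneg _) hk).trans h9
  obtain ⟨X0, h0⟩ := dens3_lower hpz hmz hκ (ε / 2) (by positivity)
  obtain ⟨X1, hX1⟩ := exists_nat_gt (2 / ε)
  refine ⟨max X0 X1, fun X hX => ?_⟩
  have h1 := h0 X (le_trans (le_max_left _ _) hX)
  have h2 : (1 : ℝ) ≤ ε / 2 * X := by
    have h4 : (X1 : ℝ) ≤ X := by exact_mod_cast le_trans (le_max_right _ _) hX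
    have h5 := hX1.le.trans h4
    rw [div_le_iff₀ hε] at h5
    linarith
  have h3 : (A X).filter (fun S => kz S = 1) ⊆ insert ∅ ((A X).filter fun S => kc S = 3) := by
    intro S hS
    rw [mem_filter] at hS
    rw [mem_insert, mem_filter]
    by_cases h : S = ∅
    · exact Or.inl h
    · exact Or.inr ⟨hS.1, by rw [hmul S h, hS.2]⟩
  have h4 := (card_le_card h3).trans (card_insert_le _ _)
  have h5 : (((A X).filter (fun S => kz S = 1)).card : ℝ) ≤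
      ((A X).filter fun S => kc S = 3).card + 1 := by exact_mod_cast h4
  linarith

/-! ### Twisted sums and classes -/

variable [PS ι]

/-- The twisted sums of `h` have the limits `μ`. -/
def MoG (D : Dat3b ι) (T : Finset ι) (h : Finset ι → ℂ) (μ : ZMod 3 → ZMod 3 → ℂ) : Prop :=
  ∀ (c c' : ZMod 3) (ε : ℝ), 0 < ε → ∃ X₀ : ℕ, ∀ X : ℕ, X₀ ≤ X →
    ‖∑ S ∈ SxT T X, h S * e3 (c * D.cA (eT T) (S ∪ T) + c' * D.cB (eT T) (S ∪ T)) -
      μ c c' * ((SxT T X).card : ℂ)‖ ≤ ε * X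

theorem MoG_one {D : Dat3b ι} (hD : D.OKb) (T : Finset ι) :
    MoG D T (fun _ => 1) fun c c' => if c = 0 ∧ c' = 0 then 1 else 0 := by
  intro c c' ε hε
  by_cases hc : c = 0 ∧ c' = 0
  · refine ⟨0, fun X _ => ?_⟩
    beta_reduce
    rw [if_pos hc, hc.1, hc.2]
    simp only [zero_mul, add_zero, e3_zero, mul_one, sum_const, nsmul_eq_mul, one_mul, sub_self,
      norm_zero]
    positivity
  · have hc2 : c ≠ 0 ∨ c' ≠ 0 := by
      by_contra hcon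
      push Not at hcon
      exact hc hcon
    obtain ⟨X1, h1⟩ := hD.h3b T ∅ (fun _ => 0) c c' (empty_subset _) (fun p hp => absurd hp
      (notMem_empty p)) (Or.inr hc2) ε hε
    refine ⟨X1, fun X hX => ?_⟩
    beta_reduce
    rw [if_neg hc, zero_mul, sub_zero]
    have h2 : ∑ S ∈ SxT T X, 1 * e3 (c * D.cA (eT T) (S ∪ T) + c' * D.cB (eT T) (S ∪ T)) =
        e3 (c * D.cA (eT T) T + c' * D.cB (eT T) T) *
          ∑ S ∈ SxT T X, ∏ q ∈ S, e3 (D.exb ∅ (fun _ => 0) c c' q) := by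
      rw [mul_sum]
      refine sum_congr rfl fun S hS => ?_
      have hST := (mem_SxT.1 hS).2
      have hS : ∀ j ∈ S, eT T j = 1 := fun j hj => if_neg (disjoint_left.1 hST hj)
      have hA : D.cA (eT T) (S ∪ T) = ∑ q ∈ S, D.a q + D.cA (eT T) T := by
        rw [Dat3b.cA, sum_union hST, Dat3b.cA]
        congr 1
        exact sum_congr rfl fun j hj => by rw [hS j hj, one_mul]
      have hB : D.cB (eT T) (S ∪ T) = ∑ q ∈ S, D.b q + D.cB (eT T) T := by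
        rw [Dat3b.cB, sum_union hST, Dat3b.cB]
        congr 1
        exact sum_congr rfl fun j hj => by rw [hS j hj, one_mul]
      rw [one_mul, hA, hB]
      have h4 : ∏ q ∈ S, e3 (D.exb ∅ (fun _ => 0) c c' q) =
          e3 (c * ∑ q ∈ S, D.a q + c' * ∑ q ∈ S, D.b q) := by
        rw [mul_sum, mul_sum, ← sum_add_distrib, e3_sum]
        exact prod_congr rfl fun q _ => by rw [Dat3b.exb, sum_empty, add_zero]
      rw [h4, ← e3_add]
      congr 1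
      ring
    rw [h2, norm_mul, norm_e3, one_mul]
    exact h1 X hX

/-- The squarefree integers prime to `T` in the class `(α, β)`. -/
def SA9 (D : Dat3b ι) (T : Finset ι) (α β : ZMod 3) (X : ℕ) : Finset (Finset ι) :=
  (SxT T X).filter fun S => D.cA (eT T) (S ∪ T) = α ∧ D.cB (eT T) (S ∪ T) = β

theorem sum_class9 (D : Dat3b ι) (T : Finset ι) (α β : ZMod 3) (X : ℕ) (g : Finset ι → ℂ) :
    ∑ S ∈ SA9 D T α β X, g S = (∑ c : ZMod 3, ∑ c' : ZMod 3, e3 (-(c * α + c' * β)) *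
      ∑ S ∈ SxT T X, g S * e3 (c * D.cA (eT T) (S ∪ T) + c' * D.cB (eT T) (S ∪ T))) / 9 := by
  have h1 : ∑ c : ZMod 3, ∑ c' : ZMod 3, e3 (-(c * α + c' * β)) *
      ∑ S ∈ SxT T X, g S * e3 (c * D.cA (eT T) (S ∪ T) + c' * D.cB (eT T) (S ∪ T)) =
      ∑ S ∈ SxT T X, g S * ((∑ c : ZMod 3, e3 (c * (D.cA (eT T) (S ∪ T) - α))) *
        ∑ c' : ZMod 3, e3 (c' * (D.cB (eT T) (S ∪ T) - β))) := by
    have h2 : ∀ c : ZMod 3, ∑ c' : ZMod 3, e3 (-(c * α + c' * β)) *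
        ∑ S ∈ SxT T X, g S * e3 (c * D.cA (eT T) (S ∪ T) + c' * D.cB (eT T) (S ∪ T)) =
        ∑ S ∈ SxT T X, g S * (e3 (c * (D.cA (eT T) (S ∪ T) - α)) *
          ∑ c' : ZMod 3, e3 (c' * (D.cB (eT T) (S ∪ T) - β))) := by
      intro c
      rw [sum_congr rfl fun c' _ => mul_sum (SxT T X) _ _, sum_comm]
      refine sum_congr rfl fun S _ => ?_
      rw [mul_sum (univ : Finset (ZMod 3)) _ (e3 (c * (D.cA (eT T) (S ∪ T) - α)))]
      refine (sum_congr rfl fun c' _ => ?_).trans (mul_sum _ _ _).symm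
      have h3 : e3 (-(c * α + c' * β)) * e3 (c * D.cA (eT T) (S ∪ T) +
          c' * D.cB (eT T) (S ∪ T)) = e3 (c * (D.cA (eT T) (S ∪ T) - α)) *
            e3 (c' * (D.cB (eT T) (S ∪ T) - β)) := by
        rw [← e3_add, ← e3_add]
        congr 1
        ring
      linear_combination g S * h3
    rw [sum_congr rfl fun c _ => h2 c, sum_comm]
    refine sum_congr rfl fun S _ => ?_
    rw [← mul_sum, sum_mul]
  rw [h1, SA9, sum_filter, sum_div]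
  refine sum_congr rfl fun S _ => ?_
  rw [sum_t, sum_t]
  by_cases h : D.cA (eT T) (S ∪ T) = α
  · by_cases h' : D.cB (eT T) (S ∪ T) = β
    · rw [if_pos ⟨h, h'⟩, if_pos (sub_eq_zero.2 h), if_pos (sub_eq_zero.2 h')]
      ring
    · rw [if_neg fun h2 => h' h2.2, if_pos (sub_eq_zero.2 h),
        if_neg fun h2 => h' (sub_eq_zero.1 h2)]
      ring
  · rw [if_neg fun h2 => h h2.1, if_neg fun h2 => h (sub_eq_zero.1 h2)]
    ring

/-- The limit of the sums over a class. -/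
theorem MoG.cls {D : Dat3b ι} {T : Finset ι} {h : Finset ι → ℂ} {μ : ZMod 3 → ZMod 3 → ℂ}
    (H : MoG D T h μ) (α β : ZMod 3) (ε : ℝ) (hε : 0 < ε) : ∃ X₀ : ℕ, ∀ X : ℕ, X₀ ≤ X →
    ‖∑ S ∈ SA9 D T α β X, h S - (∑ c : ZMod 3, ∑ c' : ZMod 3, e3 (-(c * α + c' * β)) * μ c c') /
      9 * ((SxT T X).card : ℂ)‖ ≤ ε * X := by
  choose X1 h1 using fun c c' => H c c' ε hε
  refine ⟨∑ c, ∑ c', X1 c c', fun X hX => ?_⟩
  have hX1 : ∀ c c', X1 c c' ≤ X := fun c c' =>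
    ((single_le_sum (f := fun c' => X1 c c') (fun _ _ => Nat.zero_le _) (mem_univ c')).trans
      (single_le_sum (f := fun c => ∑ c', X1 c c') (fun _ _ => Nat.zero_le _)
        (mem_univ c))).trans hX
  rw [sum_class9]
  have e1 : (∑ c : ZMod 3, ∑ c' : ZMod 3, e3 (-(c * α + c' * β)) *
      ∑ S ∈ SxT T X, h S * e3 (c * D.cA (eT T) (S ∪ T) + c' * D.cB (eT T) (S ∪ T))) / 9 -
      (∑ c : ZMod 3, ∑ c' : ZMod 3, e3 (-(c * α + c' * β)) * μ c c') / 9 *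
        ((SxT T X).card : ℂ) =
      (∑ c : ZMod 3, ∑ c' : ZMod 3, e3 (-(c * α + c' * β)) *
      (∑ S ∈ SxT T X, h S * e3 (c * D.cA (eT T) (S ∪ T) + c' * D.cB (eT T) (S ∪ T)) -
        μ c c' * ((SxT T X).card : ℂ))) / 9 := by
    simp only [mul_sub, sum_sub_distrib]
    have h2 : ∑ c : ZMod 3, ∑ c' : ZMod 3, e3 (-(c * α + c' * β)) *
        (μ c c' * ((SxT T X).card : ℂ)) =
        (∑ c : ZMod 3, ∑ c' : ZMod 3, e3 (-(c * α + c' * β)) * μ c c') *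
          ((SxT T X).card : ℂ) := by
      rw [sum_mul]
      refine sum_congr rfl fun c _ => ?_
      rw [sum_mul]
      exact sum_congr rfl fun c' _ => by ring
    rw [h2]
    ring
  rw [e1, norm_div, show ‖(9 : ℂ)‖ = 9 by norm_num, div_le_iff₀ (by norm_num)]
  refine (norm_sum_le _ _).trans ?_
  calc ∑ c : ZMod 3, ‖∑ c' : ZMod 3, e3 (-(c * α + c' * β)) *
        (∑ S ∈ SxT T X, h S * e3 (c * D.cA (eT T) (S ∪ T) + c' * D.cB (eT T) (S ∪ T)) -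
          μ c c' * ((SxT T X).card : ℂ))‖
      ≤ ∑ _c : ZMod 3, ∑ _c' : ZMod 3, ε * X := by
        refine sum_le_sum fun c _ => (norm_sum_le _ _).trans (sum_le_sum fun c' _ => ?_)
        rw [norm_mul, norm_e3, one_mul]
        exact h1 c c' X (hX1 c c')
    _ = ε * X * 9 := by
        rw [sum_const, sum_const, card_univ, ZMod.card]
        simp only [nsmul_eq_mul]
        push_cast
        ring

/-- The mean value over a class. -/
theorem MoG.mean {D : Dat3b ι} (hD : D.OKb) {T : Finset ι} {h : Finset ι → ℝ}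
    {μ : ZMod 3 → ZMod 3 → ℂ} (H : MoG D T (fun S => (h S : ℂ)) μ) (α β : ZMod 3) {v : ℝ}
    (hv : ∑ c : ZMod 3, ∑ c' : ZMod 3, e3 (-(c * α + c' * β)) * μ c c' = v) (ε : ℝ)
    (hε : 0 < ε) : ∃ X₀ : ℕ, ∀ X : ℕ, X₀ ≤ X →
    |∑ S ∈ SA9 D T α β X, h S - v * (SA9 D T α β X).card| ≤ ε * X := by
  have hpos : 0 < ε / (1 + |v|) := by positivity
  obtain ⟨X1, h1⟩ := H.cls α β (ε / (1 + |v|)) hpos
  obtain ⟨X2, h2⟩ := (MoG_one hD T).cls α β (ε / (1 + |v|)) hpos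
  refine ⟨max X1 X2, fun X hX => ?_⟩
  have h3 := h1 X (le_trans (le_max_left _ _) hX)
  have h4 := h2 X (le_trans (le_max_right _ _) hX)
  have hone : ∑ c : ZMod 3, ∑ c' : ZMod 3, e3 (-(c * α + c' * β)) *
      (if c = 0 ∧ c' = 0 then (1 : ℂ) else 0) = 1 := by
    rw [Fintype.sum_eq_single (0 : ZMod 3), Fintype.sum_eq_single (0 : ZMod 3)]
    · simp [e3_zero]
    · intro c' hc'
      rw [if_neg fun h => hc' h.2, mul_zero]
    · intro c hc
      exact sum_eq_zero fun c' _ => by rw [if_neg fun h => hc h.1, mul_zero]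
  rw [hone] at h4
  rw [hv] at h3
  simp only [sum_const, nsmul_eq_mul, mul_one] at h4
  rw [← Real.norm_eq_abs, ← Complex.norm_real]
  push_cast
  have e : ∑ S ∈ SA9 D T α β X, (h S : ℂ) - v * (SA9 D T α β X).card =
      (∑ S ∈ SA9 D T α β X, (h S : ℂ) - v / 9 * ((SxT T X).card : ℂ)) -
        v * ((SA9 D T α β X).card - 1 / 9 * ((SxT T X).card : ℂ)) := by ring
  rw [e]
  calc _ ≤ ‖∑ S ∈ SA9 D T α β X, (h S : ℂ) - v / 9 * ((SxT T X).card : ℂ)‖ +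
        ‖(v : ℂ) * ((SA9 D T α β X).card - 1 / 9 * ((SxT T X).card : ℂ))‖ := norm_sub_le _ _
    _ ≤ ε / (1 + |v|) * X + |v| * (ε / (1 + |v|) * X) := by
        rw [norm_mul, Complex.norm_real, Real.norm_eq_abs]
        exact add_le_add h3 (mul_le_mul_of_nonneg_left h4 (abs_nonneg _))
    _ = ε * X := by
        have : (1 : ℝ) + |v| ≠ 0 := by positivity
        field_simp

/-! ### The moments of the kernel sizes -/

/-- The twisted moments for `N_{τ,σ}`. -/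
theorem MoG_N {D : Dat3b ι} (hD : D.OKb) {C₂ : ℝ}
    (hC₂ : ∀ Y : ℕ, ((Sx ι Y).card : ℝ) ≤ C₂ * Y) (τ σ : ZMod 3) (T : Finset ι) (k : ℕ) :
    MoG D T (fun S => ((((D.tw τ σ).kc (eT T) 1 (S ∪ T) : ℝ) ^ k : ℝ) : ℂ)) fun c c' =>
      if c = 0 ∧ c' = 0 then (if τ = 0 ∧ σ = 0 then 3 ^ k * (Nk3 k : ℂ) else (Nk3 k : ℂ))
        else 0 := by
  rcases Nat.eq_zero_or_pos k with rfl | hk
  · have h1 := MoG_one hD T
    intro c c' ε hε
    obtain ⟨X0, h0⟩ := h1 c c' ε hε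
    refine ⟨X0, fun X hX => ?_⟩
    have h2 := h0 X hX
    simpa [Nk3] using h2
  · intro c c' ε hε
    obtain ⟨X0, h0⟩ := Ex_pos hD hC₂ hk (fun l => τ * Q3 l + c) (fun l => σ * Q3 l + c') T ε hε
    refine ⟨X0, fun X hX => ?_⟩
    have h2 := h0 X hX
    rw [card_Gdg] at h2
    have h3 : ∀ S ∈ SxT T X, ((((D.tw τ σ).kc (eT T) 1 (S ∪ T) : ℝ) ^ k : ℝ) : ℂ) *
        e3 (c * D.cA (eT T) (S ∪ T) + c' * D.cB (eT T) (S ∪ T)) =
        Ex D (k := k) (fun l => τ * Q3 l + c) (fun l => σ * Q3 l + c') T S := fun S _ => by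
      rw [← kc_Ex]
      push_cast
      rfl
    rw [sum_congr rfl h3]
    push_cast at h2
    exact h2

theorem MoG_B_aux {D : Dat3b ι} (hD : D.OKb) {C₂ : ℝ}
    (hC₂ : ∀ Y : ℕ, ((Sx ι Y).card : ℝ) ≤ C₂ * Y) (τ σ κ κ' : ZMod 3) (T : Finset ι) {k : ℕ}
    (hk : 1 ≤ k) (c c' : ZMod 3) (ε : ℝ) (hε : 0 < ε) : ∃ X₀ : ℕ, ∀ X : ℕ, X₀ ≤ X →
    ‖∑ S ∈ SxT T X, (((D.kB (eT T) τ σ (κ + κ' * D.cB (eT T) (S ∪ T)) (S ∪ T) : ℝ) ^ k : ℝ) : ℂ) *
        e3 (c * D.cA (eT T) (S ∪ T) + c' * D.cB (eT T) (S ∪ T)) -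
      ((3 ^ k : ℂ)⁻¹ * ∑ m : Lab3 k, e3 (κ * Q3 m) * ((Gdg k (fun l => τ * Q3 l + B3 l m + c)
      (fun l => σ * Q3 l + (κ' * Q3 m + c'))).card : ℂ)) * ((SxT T X).card : ℂ)‖ ≤ ε * X := by
  have hN : (0 : ℝ) < Fintype.card (Lab3 k) := by
    exact_mod_cast Fintype.card_pos
  choose X0 h0 using fun m : Lab3 k => Ex_pos hD hC₂ hk (fun l => τ * Q3 l + B3 l m + c)
    (fun l => σ * Q3 l + (κ' * Q3 m + c')) T (ε / Fintype.card (Lab3 k)) (by positivity)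
  refine ⟨∑ m, X0 m, fun X hX => ?_⟩
  have hXt : ∀ m, X0 m ≤ X := fun m =>
    (single_le_sum (fun _ _ => Nat.zero_le _) (mem_univ m)).trans hX
  have h3 : ∑ S ∈ SxT T X,
      (((D.kB (eT T) τ σ (κ + κ' * D.cB (eT T) (S ∪ T)) (S ∪ T) : ℝ) ^ k : ℝ) : ℂ) *
        e3 (c * D.cA (eT T) (S ∪ T) + c' * D.cB (eT T) (S ∪ T)) =
      (3 ^ k : ℂ)⁻¹ * ∑ m : Lab3 k, e3 (κ * Q3 m) * ∑ S ∈ SxT T X,
        Ex D (fun l => τ * Q3 l + B3 l m + c) (fun l => σ * Q3 l + (κ' * Q3 m + c')) T S := by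
    have h4 : ∀ S ∈ SxT T X,
        (((D.kB (eT T) τ σ (κ + κ' * D.cB (eT T) (S ∪ T)) (S ∪ T) : ℝ) ^ k : ℝ) : ℂ) *
        e3 (c * D.cA (eT T) (S ∪ T) + c' * D.cB (eT T) (S ∪ T)) =
        (3 ^ k : ℂ)⁻¹ * ∑ m : Lab3 k, e3 (κ * Q3 m) *
          Ex D (fun l => τ * Q3 l + B3 l m + c) (fun l => σ * Q3 l + (κ' * Q3 m + c')) T S :=
      fun S _ => by
        rw [← kB_Ex]
        push_cast
        rfl
    rw [sum_congr rfl h4, ← mul_sum, sum_comm]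
    congr 1
    exact sum_congr rfl fun m _ => (mul_sum _ _ _).symm
  have h5 : (3 ^ k : ℂ)⁻¹ * ∑ m : Lab3 k, e3 (κ * Q3 m) * ∑ S ∈ SxT T X,
        Ex D (fun l => τ * Q3 l + B3 l m + c) (fun l => σ * Q3 l + (κ' * Q3 m + c')) T S -
      ((3 ^ k : ℂ)⁻¹ * ∑ m : Lab3 k, e3 (κ * Q3 m) * ((Gdg k (fun l => τ * Q3 l + B3 l m + c)
      (fun l => σ * Q3 l + (κ' * Q3 m + c'))).card : ℂ)) * ((SxT T X).card : ℂ) =
      (3 ^ k : ℂ)⁻¹ * ∑ m : Lab3 k, e3 (κ * Q3 m) * (∑ S ∈ SxT T X,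
        Ex D (fun l => τ * Q3 l + B3 l m + c) (fun l => σ * Q3 l + (κ' * Q3 m + c')) T S -
        ((Gdg k (fun l => τ * Q3 l + B3 l m + c)
      (fun l => σ * Q3 l + (κ' * Q3 m + c'))).card : ℂ) * ((SxT T X).card : ℂ)) := by
    simp only [mul_sub, sum_sub_distrib]
    have h6 : ∑ m : Lab3 k, e3 (κ * Q3 m) * (((Gdg k (fun l => τ * Q3 l + B3 l m + c)
      (fun l => σ * Q3 l + (κ' * Q3 m + c'))).card : ℂ) * ((SxT T X).card : ℂ)) =
      (∑ m : Lab3 k, e3 (κ * Q3 m) * ((Gdg k (fun l => τ * Q3 l + B3 l m + c)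
      (fun l => σ * Q3 l + (κ' * Q3 m + c'))).card : ℂ)) * ((SxT T X).card : ℂ) := by
      rw [sum_mul]
      exact sum_congr rfl fun m _ => by ring
    rw [h6]
    ring
  have h7 : ‖((3 : ℂ) ^ k)⁻¹‖ ≤ 1 := by
    rw [norm_inv, norm_pow]
    exact inv_le_one_of_one_le₀ (one_le_pow₀ (by norm_num))
  rw [h3, h5, norm_mul]
  calc ‖((3 : ℂ) ^ k)⁻¹‖ * ‖∑ m : Lab3 k, e3 (κ * Q3 m) * (∑ S ∈ SxT T X,
        Ex D (fun l => τ * Q3 l + B3 l m + c) (fun l => σ * Q3 l + (κ' * Q3 m + c')) T S -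
        ((Gdg k (fun l => τ * Q3 l + B3 l m + c)
      (fun l => σ * Q3 l + (κ' * Q3 m + c'))).card : ℂ) * ((SxT T X).card : ℂ))‖
      ≤ 1 * ∑ m : Lab3 k, ε / Fintype.card (Lab3 k) * X := by
        refine mul_le_mul h7 ?_ (norm_nonneg _) zero_le_one
        refine (norm_sum_le _ _).trans (sum_le_sum fun m _ => ?_)
        rw [norm_mul, norm_e3, one_mul]
        exact h0 m X (hXt m)
    _ = ε * X := by
      rw [one_mul, sum_const, card_univ, nsmul_eq_mul]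
      field_simp

/-- The twisted moments for the bordered matrices, `σ ≠ 0`. -/
theorem MoG_B {D : Dat3b ι} (hD : D.OKb) {C₂ : ℝ}
    (hC₂ : ∀ Y : ℕ, ((Sx ι Y).card : ℝ) ≤ C₂ * Y) (τ : ZMod 3) {σ : ZMod 3} (hσ : σ ≠ 0)
    (κ κ' : ZMod 3) (T : Finset ι) (k : ℕ) :
    MoG D T (fun S =>
      (((D.kB (eT T) τ σ (κ + κ' * D.cB (eT T) (S ∪ T)) (S ∪ T) : ℝ) ^ k : ℝ) : ℂ))
      fun c c' => if c = 0 ∧ c' = 0 then (Nk3 k : ℂ) else 0 := by
  rcases Nat.eq_zero_or_pos k with rfl | hk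
  · have h1 := MoG_one hD T
    intro c c' ε hε
    obtain ⟨X0, h0⟩ := h1 c c' ε hε
    refine ⟨X0, fun X hX => ?_⟩
    have h2 := h0 X hX
    simpa [Nk3] using h2
  · intro c c' ε hε
    obtain ⟨X0, h0⟩ := MoG_B_aux hD hC₂ τ σ κ κ' T hk c c' ε hε
    refine ⟨X0, fun X hX => ?_⟩
    have h2 := h0 X hX
    rw [sum_Gdg_ne k τ hσ] at h2
    have h3 : (3 ^ k : ℂ)⁻¹ * (if c = 0 ∧ c' = 0 then (3 ^ k * Nk3 k : ℂ) else 0) =
        if c = 0 ∧ c' = 0 then (Nk3 k : ℂ) else 0 := by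
      have h4 : (3 : ℂ) ^ k ≠ 0 := pow_ne_zero _ (by norm_num)
      split_ifs
      · field_simp
      · rw [mul_zero]
    rw [h3] at h2
    exact h2

/-- The twisted moments for the bordered Laplacian. -/
theorem MoG_B0 {D : Dat3b ι} (hD : D.OKb) {C₂ : ℝ}
    (hC₂ : ∀ Y : ℕ, ((Sx ι Y).card : ℝ) ≤ C₂ * Y)
    (κ κ' : ZMod 3) (T : Finset ι) (k : ℕ) :
    MoG D T (fun S =>
      (((D.kB (eT T) 0 0 (κ + κ' * D.cB (eT T) (S ∪ T)) (S ∪ T) : ℝ) ^ k : ℝ) : ℂ))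
      fun c c' => if c' = 0 then (Nk3 k : ℂ) * ((if c = 0 then 1 else 0) + (3 ^ k - 1) / 3)
        else 0 := by
  rcases Nat.eq_zero_or_pos k with rfl | hk
  · have h1 := MoG_one hD T
    intro c c' ε hε
    obtain ⟨X0, h0⟩ := h1 c c' ε hε
    refine ⟨X0, fun X hX => ?_⟩
    have h2 := h0 X hX
    have h3 : (if c' = 0 then (Nk3 0 : ℂ) * ((if c = 0 then 1 else 0) + (3 ^ 0 - 1) / 3)
        else 0) = if c = 0 ∧ c' = 0 then (1 : ℂ) else 0 := by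
      by_cases hc : c = 0 <;> by_cases hc' : c' = 0 <;> simp [hc, hc', Nk3]
    simp only [pow_zero, Complex.ofReal_one] at h2 ⊢
    simp only [pow_zero] at h3
    rw [h3]
    exact h2
  · intro c c' ε hε
    obtain ⟨X0, h0⟩ := MoG_B_aux hD hC₂ 0 0 κ κ' T hk c c' ε hε
    refine ⟨X0, fun X hX => ?_⟩
    have h2 := h0 X hX
    rw [sum_Gdg_zero k] at h2
    have h3 : (3 ^ k : ℂ)⁻¹ * (if c' = 0 then
        3 ^ k * (Nk3 k * ((if c = 0 then 1 else 0) + (3 ^ k - 1) / 3) : ℂ) else 0) =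
        if c' = 0 then (Nk3 k : ℂ) * ((if c = 0 then 1 else 0) + (3 ^ k - 1) / 3) else 0 := by
      have h4 : (3 : ℂ) ^ k ≠ 0 := pow_ne_zero _ (by norm_num)
      by_cases hc' : c' = 0
      · rw [if_pos hc', if_pos hc', ← mul_assoc, inv_mul_cancel₀ h4, one_mul]
      · rw [if_neg hc', if_neg hc', mul_zero]
    rw [h3] at h2
    exact h2

end

end Pool.Agent.Lib.MP_1a91b9_ntK.Da
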