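import Pool.Agent.Lib.MP_1a91b9_ntK2.D.ExG

/-!
# MP_1a91b9_nt (cubic twists, all classes), part D: the numbers of main terms
-/

set_option autoImplicit false

namespace Pool.Agent.Lib.MP_1a91b9_ntK.Da

open Finset

noncomputable section

variable {k : ℕ}

theorem Gdg_sub (τ c : ZMod 3) (δ : Lab3 k → ZMod 3) :
    Gdg k (fun l => τ * Q3 l + c) δ ⊆ Gd k τ c := by
  intro U hU
  obtain ⟨h1, h2, h3⟩ := mem_Gdg.1 hU
  exact mem_Gd.2 ⟨h1, h2, fun l hl => (h3 l hl).1⟩

theorem Gdg_sub' (σ c : ZMod 3) (γ : Lab3 k → ZMod 3) :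
    Gdg k γ (fun l => σ * Q3 l + c) ⊆ Gd k σ c := by
  intro U hU
  obtain ⟨h1, h2, h3⟩ := mem_Gdg.1 hU
  exact mem_Gd.2 ⟨h1, h2, fun l hl => (h3 l hl).2⟩

/-- The main terms for the matrix `N_{τ,σ}`. -/
theorem card_Gdg (k : ℕ) (τ σ c c' : ZMod 3) :
    (Gdg k (fun l => τ * Q3 l + c) (fun l => σ * Q3 l + c')).card =
      if c = 0 ∧ c' = 0 then (if τ = 0 ∧ σ = 0 then 3 ^ k * Nk3 k else Nk3 k) else 0 := by
  by_cases hc : c = 0
  · by_cases hc' : c' = 0
    · rw [if_pos ⟨hc, hc'⟩]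
      subst hc
      subst hc'
      by_cases hτ : τ = 0
      · by_cases hσ : σ = 0
        · rw [if_pos ⟨hτ, hσ⟩, ← card_Gd_zero]
          congr 1
          ext U
          rw [mem_Gdg, mem_Gd]
          subst hτ
          subst hσ
          simp
        · rw [if_neg fun h => hσ h.2, ← card_Lgs3, ← Gd_of_ne hσ]
          congr 1
          ext U
          rw [mem_Gdg, mem_Gd]
          subst hτ
          simp
      · rw [if_neg fun h => hτ h.1, ← card_Lgs3]
        congr 1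
        refine Subset.antisymm ?_ ?_
        · rw [← Gd_of_ne hτ]
          exact Gdg_sub τ 0 _
        · intro U hU
          have h := mem_Lgs3.1 hU
          rw [mem_Gdg]
          exact ⟨h.unl, h.card, fun l hl => by
            rw [h.unl.Q h.zero hl, mul_zero, mul_zero, add_zero]
            exact ⟨rfl, rfl⟩⟩
    · rw [if_neg fun h => hc' h.2, card_eq_zero, ← subset_empty, ← Gd_c hc']
      exact Gdg_sub' σ c' _
  · rw [if_neg fun h => hc h.1, card_eq_zero, ← subset_empty, ← Gd_c hc]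
    exact Gdg_sub τ c _

/-! ### Bordered matrices -/

/-- The main terms for the bordered matrices with `σ ≠ 0`. -/
theorem sum_Gdg_ne (k : ℕ) (τ : ZMod 3) {σ : ZMod 3} (hσ : σ ≠ 0) (κ κ' c c' : ZMod 3) :
    ∑ m : Lab3 k, e3 (κ * Q3 m) * ((Gdg k (fun l => τ * Q3 l + B3 l m + c)
      (fun l => σ * Q3 l + (κ' * Q3 m + c'))).card : ℂ) =
      if c = 0 ∧ c' = 0 then (3 ^ k * Nk3 k : ℂ) else 0 := by
  classical
  have hG : ∀ m : Lab3 k, Gdg k (fun l => τ * Q3 l + B3 l m + c)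
      (fun l => σ * Q3 l + (κ' * Q3 m + c')) =
      if c = 0 ∧ c' = 0 then (Lgs3 k).filter (fun U => m ∈ U) else ∅ := by
    intro m
    have hmem : ∀ U ∈ Gdg k (fun l => τ * Q3 l + B3 l m + c)
        (fun l => σ * Q3 l + (κ' * Q3 m + c')), U ∈ Lgs3 k ∧ m ∈ U ∧ c = 0 ∧ c' = 0 := by
      intro U hU
      obtain ⟨h1, h2, h3⟩ := mem_Gdg.1 hU
      have h4 : ∀ l ∈ U, Q3 l = -σ⁻¹ * (κ' * Q3 m + c') := fun l hl => by
        have h5 : σ * Q3 l + (κ' * Q3 m + c') = 0 := (h3 l hl).2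
        have h6 : σ⁻¹ * (σ * Q3 l + (κ' * Q3 m + c')) = 0 := by rw [h5, mul_zero]
        rw [mul_add, ← mul_assoc, inv_mul_cancel₀ hσ, one_mul] at h6
        linear_combination h6
      have h0 := zero_mem_of_const h1 h2 _ h4
      have hM : Mx3 U := ⟨h1, h2, h0⟩
      have hc : c = 0 := by
        have h5 : τ * Q3 (0 : Lab3 k) + B3 0 m + c = 0 := (h3 0 h0).1
        have h6 : B3 (0 : Lab3 k) m = 0 := by simp [B3]
        rw [Q3_zero, h6, mul_zero, zero_add, zero_add] at h5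
        exact h5
      have hm : m ∈ U := by
        rw [hM.mem_iff]
        intro w hw
        have h5 : τ * Q3 w + B3 w m + c = 0 := (h3 w hw).1
        rw [h1.Q h0 hw, hc, mul_zero, zero_add, add_zero] at h5
        rw [B3_comm]
        exact h5
      have hc' : c' = 0 := by
        have h5 : σ * Q3 (0 : Lab3 k) + (κ' * Q3 m + c') = 0 := (h3 0 h0).2
        rw [Q3_zero, h1.Q h0 hm, mul_zero, mul_zero, zero_add, zero_add] at h5
        exact h5
      exact ⟨mem_Lgs3.2 hM, hm, hc, hc'⟩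
    split_ifs with hcc
    · ext U
      rw [mem_filter]
      constructor
      · intro hU
        exact ⟨(hmem U hU).1, (hmem U hU).2.1⟩
      · rintro ⟨hU, hm⟩
        have h := mem_Lgs3.1 hU
        rw [mem_Gdg]
        refine ⟨h.unl, h.card, fun l hl => ?_⟩
        show τ * Q3 l + B3 l m + c = 0 ∧ σ * Q3 l + (κ' * Q3 m + c') = 0
        rw [h.unl.Q h.zero hl, h.unl.Q h.zero hm, h.unl.B h.zero hl hm, hcc.1, hcc.2]
        simp
    · rw [eq_empty_iff_forall_notMem]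
      intro U hU
      exact hcc (hmem U hU).2.2
  simp only [hG]
  by_cases hcc : c = 0 ∧ c' = 0
  · simp only [if_pos hcc]
    have h1 : ∀ m : Lab3 k, e3 (κ * Q3 m) * (((Lgs3 k).filter (fun U => m ∈ U)).card : ℂ) =
        ∑ U ∈ (Lgs3 k).filter (fun U => m ∈ U), (1 : ℂ) := by
      intro m
      rw [sum_const, nsmul_eq_mul, mul_one]
      by_cases hne : ((Lgs3 k).filter (fun U => m ∈ U)).Nonempty
      · obtain ⟨U, hU⟩ := hne
        rw [mem_filter] at hU
        have h := mem_Lgs3.1 hU.1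
        rw [h.unl.Q h.zero hU.2, mul_zero, e3_zero, one_mul]
      · rw [not_nonempty_iff_eq_empty] at hne
        rw [hne, card_empty, Nat.cast_zero, mul_zero]
    simp only [h1]
    have h2 : ∑ m : Lab3 k, ∑ U ∈ (Lgs3 k).filter (fun U => m ∈ U), (1 : ℂ) =
        ∑ U ∈ Lgs3 k, ∑ m ∈ U, 1 := by
      refine sum_comm' ?_
      intro m U
      rw [mem_filter]
      exact ⟨fun h => ⟨h.2.2, h.2.1⟩, fun h => ⟨mem_univ _, h.2, h.1⟩⟩
    rw [h2]
    have h3 : ∀ U ∈ Lgs3 k, ∑ m ∈ U, (1 : ℂ) = 3 ^ k := fun U hU => by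
      rw [sum_const, nsmul_eq_mul, mul_one, (mem_Lgs3.1 hU).card]
      push_cast
      rfl
    rw [sum_congr rfl h3, sum_const, nsmul_eq_mul, card_Lgs3, mul_comm]
  · simp only [if_neg hcc, card_empty, Nat.cast_zero, mul_zero, sum_const_zero]

theorem shift_Mx {U : Finset (Lab3 k)} (hU : Unl3 U) (hc : U.card = 3 ^ k) {l0 : Lab3 k}
    (hl0 : l0 ∈ U) : Mx3 (sh3 l0 U) :=
  ⟨Unl_sh3 hU, by rw [card_sh3, hc], by rw [mem_sh3, zero_add]; exact hl0⟩

/-- The labels `m` with `B(·, m)` constant on `U`. -/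
theorem const_iff {U : Finset (Lab3 k)} (hU : Unl3 U) (hc : U.card = 3 ^ k) {l0 : Lab3 k}
    (hl0 : l0 ∈ U) (c : ZMod 3) (m : Lab3 k) :
    (∀ l ∈ U, B3 l m + c = 0) ↔ m ∈ sh3 l0 U ∧ B3 l0 m + c = 0 := by
  have hW := shift_Mx hU hc hl0
  constructor
  · intro h
    refine ⟨?_, h l0 hl0⟩
    rw [hW.mem_iff]
    intro w hw
    have h1 := h _ (mem_sh3.1 hw)
    have h2 := h l0 hl0
    rw [B3_add'] at h1
    rw [B3_comm]
    linear_combination h1 - h2
  · rintro ⟨h1, h2⟩ l hl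
    have h3 : l - l0 ∈ sh3 l0 U := by
      rw [mem_sh3, sub_add_cancel]
      exact hl
    have h4 := hW.unl.B hW.zero h3 h1
    have h5 : B3 l m = B3 (l - l0) m + B3 l0 m := by
      rw [← B3_add', sub_add_cancel]
    rw [h5, h4, zero_add]
    exact h2

theorem Q_of_const {U : Finset (Lab3 k)} (hU : Unl3 U) (hc : U.card = 3 ^ k) {c : ZMod 3}
    {m : Lab3 k} (h : ∀ l ∈ U, B3 l m + c = 0) : Q3 m = 0 := by
  obtain ⟨l0, hl0⟩ := nonempty_of_card hc
  have hW := shift_Mx hU hc hl0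
  exact hW.unl.Q hW.zero ((const_iff hU hc hl0 c m).1 h).1

open Classical in
theorem card_const {U : Finset (Lab3 k)} (hU : Unl3 U) (hc : U.card = 3 ^ k) (c : ZMod 3) :
    ((univ.filter fun m : Lab3 k => ∀ l ∈ U, B3 l m + c = 0).card : ℂ) =
      if 0 ∈ U then (if c = 0 then 3 ^ k else 0) else 3 ^ k / 3 := by
  split_ifs with h0 hc0
  · have e : (univ.filter fun m : Lab3 k => ∀ l ∈ U, B3 l m + c = 0) = U := by
      ext m
      rw [mem_filter, hc0]
      have hM : Mx3 U := ⟨hU, hc, h0⟩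
      rw [hM.mem_iff]
      constructor
      · rintro ⟨_, h⟩ w hw
        have := h w hw
        rw [add_zero] at this
        rwa [B3_comm]
      · intro h
        refine ⟨mem_univ _, fun l hl => ?_⟩
        rw [add_zero, B3_comm]
        exact h l hl
    rw [e, hc]
    push_cast
    rfl
  · have e : (univ.filter fun m : Lab3 k => ∀ l ∈ U, B3 l m + c = 0) = ∅ := by
      rw [eq_empty_iff_forall_notMem]
      intro m hm
      rw [mem_filter] at hm
      have h1 := hm.2 0 h0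
      have h6 : B3 (0 : Lab3 k) m = 0 := by simp [B3]
      rw [h6, zero_add] at h1
      exact hc0 h1
    rw [e, card_empty, Nat.cast_zero]
  · obtain ⟨l0, hl0⟩ := nonempty_of_card hc
    have hW := shift_Mx hU hc hl0
    have hl0W : ∀ t : ZMod 3, t ≠ 0 → t • l0 ∉ sh3 l0 U := by
      intro t ht hmem
      have h1 := hW.smul_mem t⁻¹ hmem
      rw [smul_smul, inv_mul_cancel₀ ht, one_smul] at h1
      have h2 := hW.smul_mem (-1) h1
      rw [neg_one_smul, mem_sh3, neg_add_cancel] at h2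
      exact h0 h2
    have e : (univ.filter fun m : Lab3 k => ∀ l ∈ U, B3 l m + c = 0) =
        (sh3 l0 U).filter fun m => B3 l0 m + c = 0 := by
      ext m
      rw [mem_filter, mem_filter, const_iff hU hc hl0]
      exact ⟨fun h => h.2, fun h => ⟨mem_univ _, h⟩⟩
    rw [e]
    have h1 : (3 : ℂ) * (((sh3 l0 U).filter fun m => B3 l0 m + c = 0).card : ℂ) =
        ∑ m ∈ sh3 l0 U, ∑ t : ZMod 3, e3 (t * (B3 l0 m + c)) := by
      simp only [sum_t]
      rw [← sum_filter, sum_const, nsmul_eq_mul, mul_comm]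
    have h2 : ∑ m ∈ sh3 l0 U, ∑ t : ZMod 3, e3 (t * (B3 l0 m + c)) = 3 ^ k := by
      rw [sum_comm]
      have e' : (univ : Finset (ZMod 3)) = {0, 1, 2} := by decide
      have h3 : ∀ t : ZMod 3, t ≠ 0 → ∑ m ∈ sh3 l0 U, e3 (t * (B3 l0 m + c)) = 0 := by
        intro t ht
        have h4 := hW.sum_eq_zero (hl0W t ht)
        have h5 : ∀ m ∈ sh3 l0 U, e3 (t * (B3 l0 m + c)) = e3 (B3 (t • l0) m) * e3 (t * c) :=
          fun m _ => by
            rw [← e3_add, B3_smul]
            congr 1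
            ring
        rw [sum_congr rfl h5, ← sum_mul, h4, zero_mul]
      rw [e', sum_insert (by decide), sum_insert (by decide), sum_singleton,
        h3 1 (by decide), h3 2 (by decide)]
      simp only [zero_mul, e3_zero, sum_const, nsmul_eq_mul, mul_one, add_zero]
      rw [card_sh3, hc]
      push_cast
      rfl
    rw [h2] at h1
    rw [eq_div_iff (by norm_num : (3 : ℂ) ≠ 0), mul_comm]
    exact h1

/-- The main terms for the bordered Laplacian. -/
theorem sum_Gdg_zero (k : ℕ) (κ κ' c c' : ZMod 3) :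
    ∑ m : Lab3 k, e3 (κ * Q3 m) * ((Gdg k (fun l => 0 * Q3 l + B3 l m + c)
      (fun l => 0 * Q3 l + (κ' * Q3 m + c'))).card : ℂ) =
      if c' = 0 then 3 ^ k * (Nk3 k * ((if c = 0 then 1 else 0) + (3 ^ k - 1) / 3) : ℂ)
        else 0 := by
  classical
  have hG : ∀ m : Lab3 k, e3 (κ * Q3 m) * ((Gdg k (fun l => 0 * Q3 l + B3 l m + c)
      (fun l => 0 * Q3 l + (κ' * Q3 m + c'))).card : ℂ) =
      if c' = 0 then ∑ U ∈ (Gd k 0 0).filter (fun U => ∀ l ∈ U, B3 l m + c = 0), (1 : ℂ)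
        else 0 := by
    intro m
    have hmem : ∀ U ∈ Gdg k (fun l => 0 * Q3 l + B3 l m + c)
        (fun l => 0 * Q3 l + (κ' * Q3 m + c')), U ∈ Gd k 0 0 ∧ (∀ l ∈ U, B3 l m + c = 0) ∧
          Q3 m = 0 ∧ c' = 0 := by
      intro U hU
      obtain ⟨h1, h2, h3⟩ := mem_Gdg.1 hU
      have h4 : ∀ l ∈ U, B3 l m + c = 0 := fun l hl => by
        have h5 : 0 * Q3 l + B3 l m + c = 0 := (h3 l hl).1
        rwa [zero_mul, zero_add] at h5
      have hQ := Q_of_const h1 h2 h4
      obtain ⟨l0, hl0⟩ := nonempty_of_card h2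
      have h5 : 0 * Q3 l0 + (κ' * Q3 m + c') = 0 := (h3 l0 hl0).2
      rw [hQ, zero_mul, zero_add, mul_zero, zero_add] at h5
      exact ⟨mem_Gd.2 ⟨h1, h2, fun l _ => by rw [zero_mul, add_zero]⟩, h4, hQ, h5⟩
    split_ifs with hc'
    · have e : Gdg k (fun l => 0 * Q3 l + B3 l m + c)
        (fun l => 0 * Q3 l + (κ' * Q3 m + c')) =
          (Gd k 0 0).filter (fun U => ∀ l ∈ U, B3 l m + c = 0) := by
        ext U
        rw [mem_filter]
        constructor
        · intro hU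
          exact ⟨(hmem U hU).1, (hmem U hU).2.1⟩
        · rintro ⟨hU, hm⟩
          obtain ⟨h1, h2, _⟩ := mem_Gd.1 hU
          rw [mem_Gdg]
          refine ⟨h1, h2, fun l hl => ?_⟩
          show 0 * Q3 l + B3 l m + c = 0 ∧ 0 * Q3 l + (κ' * Q3 m + c') = 0
          rw [Q_of_const h1 h2 hm, hc', zero_mul, zero_add, mul_zero, add_zero, add_zero]
          exact ⟨hm l hl, rfl⟩
      rw [e, sum_const, nsmul_eq_mul, mul_one]
      by_cases hne : ((Gd k 0 0).filter (fun U => ∀ l ∈ U, B3 l m + c = 0)).Nonempty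
      · obtain ⟨U, hU⟩ := hne
        rw [← e] at hU
        rw [(hmem U hU).2.2.1, mul_zero, e3_zero, one_mul]
      · rw [not_nonempty_iff_eq_empty] at hne
        rw [hne, card_empty, Nat.cast_zero, mul_zero]
    · have e : Gdg k (fun l => 0 * Q3 l + B3 l m + c)
        (fun l => 0 * Q3 l + (κ' * Q3 m + c')) = ∅ := by
        rw [eq_empty_iff_forall_notMem]
        intro U hU
        exact hc' (hmem U hU).2.2.2
      rw [e, card_empty, Nat.cast_zero, mul_zero]
  simp only [hG]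
  by_cases hc' : c' = 0
  · simp only [if_pos hc']
    have h2 : ∑ m : Lab3 k, ∑ U ∈ (Gd k 0 0).filter (fun U => ∀ l ∈ U, B3 l m + c = 0),
        (1 : ℂ) = ∑ U ∈ Gd k 0 0,
          ∑ m ∈ univ.filter (fun m : Lab3 k => ∀ l ∈ U, B3 l m + c = 0), 1 := by
      refine sum_comm' ?_
      intro m U
      rw [mem_filter, mem_filter]
      exact ⟨fun h => ⟨⟨mem_univ _, h.2.2⟩, h.2.1⟩, fun h => ⟨mem_univ _, h.2, h.1.2⟩⟩
    rw [h2]
    have h3 : ∀ U ∈ Gd k 0 0,
        ∑ m ∈ univ.filter (fun m : Lab3 k => ∀ l ∈ U, B3 l m + c = 0), (1 : ℂ) =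
        if 0 ∈ U then (if c = 0 then 3 ^ k else 0) else 3 ^ k / 3 := fun U hU => by
      obtain ⟨h4, h5, _⟩ := mem_Gd.1 hU
      rw [sum_const, nsmul_eq_mul, mul_one]
      exact card_const h4 h5 c
    rw [sum_congr rfl h3, sum_ite, sum_const, sum_const, nsmul_eq_mul, nsmul_eq_mul]
    have h6 : (Gd k 0 0).filter (fun U => 0 ∈ U) = Lgs3 k := by
      ext U
      rw [mem_filter, mem_Gd, mem_Lgs3]
      constructor
      · rintro ⟨⟨h4, h5, _⟩, h7⟩
        exact ⟨h4, h5, h7⟩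
      · intro h
        exact ⟨⟨h.unl, h.card, fun l _ => by rw [zero_mul, add_zero]⟩, h.zero⟩
    have h7 : ((Gd k 0 0).filter (fun U => ¬ 0 ∈ U)).card + Nk3 k = 3 ^ k * Nk3 k := by
      rw [← card_Gd_zero, ← card_filter_add_card_filter_not (s := Gd k 0 0) (fun U => 0 ∈ U), h6,
        card_Lgs3, add_comm]
    have h8 : (((Gd k 0 0).filter (fun U => ¬ 0 ∈ U)).card : ℂ) = 3 ^ k * Nk3 k - Nk3 k := by
      rw [eq_sub_iff_add_eq]
      exact_mod_cast h7
    rw [h6, h8, card_Lgs3]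
    split_ifs <;> ring
  · simp only [if_neg hc', sum_const_zero]

end

end Pool.Agent.Lib.MP_1a91b9_ntK.Da
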