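import Pool.Agent.Lib.MP_1a91b9_ntK2.D.Opt
import Pool.Agent.Lib.MP_1a91b9_ntK.D.Engine

/-!
# MP_1a91b9_nt (cubic twists), part D: the engine with a second class coordinate

It is the engine for the system with one more prime.
-/

set_option autoImplicit false

namespace Pool.Agent.Lib.MP_1a91b9_ntK2

open Finset Pool.Agent.Lib.MP_1a91b9_ntH Pool.Agent.Lib.MP_1a91b9_ntK

noncomputable section

variable {ι : Type} {L : Type}

/-- The label system with one more fixed prime. -/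
def extL (Λ : LS3b L ι) : LS3 L (Option ι) where
  Phi := Λ.Phi
  c := Λ.c
  t l x := match x with
    | some p => Λ.t l p
    | none => Λ.d l
  B := insertNone Λ.B
  m := Λ.m

theorem extL_OK {Λ : LS3b L ι} (h : Λ.toLS3.OK) : (extL Λ).OK :=
  ⟨h.diag, h.two, h.k1, h.k2⟩

theorem extL_lin0 (Λ : LS3b L ι) (U : Finset L) : (extL Λ).Lin0 U ↔ Λ.Lin0b U := by
  unfold LS3.Lin0 LS3b.Lin0b
  refine forall₂_congr fun l _ => and_congr_right fun _ => ?_
  constructor
  · intro h
    exact ⟨h none none_mem_insertNone, fun p hp => h (some p) (some_mem_insertNone.2 hp)⟩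
  · rintro ⟨h0, h⟩ (_ | p) hp
    · exact h0
    · exact h p (some_mem_insertNone.1 hp)

theorem extL_Ms [DecidableEq ι] (Λ : LS3b L ι) [Fintype L] : (extL Λ).Ms = Λ.Msb := by
  ext U
  rw [LS3.mem_Ms, LS3b.mem_Msb, extL_lin0]
  exact Iff.rfl

variable [DecidableEq ι]

theorem ext_lin (D : Dat3b ι) (Λ : LS3b L ι) (l : L) (q : ι) :
    (ext D).lin (extL Λ) l (some q) = D.linb Λ l q := by
  unfold Dat3.lin Dat3b.linb
  have hB : (extL Λ).B = insertNone Λ.B := rfl
  rw [ext_ex, hB, erase_ins, if_pos none_mem_insertNone]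
  rfl

omit [DecidableEq ι] in
theorem mp_bij (S : Finset ι) :
    Function.Bijective fun q : S => (⟨some q.1, mem_mp.2 q.2⟩ : ↥(mp S)) := by
  constructor
  · intro p q h
    exact Subtype.ext (Option.some.inj (congrArg Subtype.val h))
  · rintro ⟨_ | q, hq⟩
    · exact absurd hq (none_notMem_mp S)
    · exact ⟨⟨q, mem_mp.1 hq⟩, rfl⟩

/-- The equivalence of the sets of primes. -/
def mpEq (S : Finset ι) : S ≃ ↥(mp S) := Equiv.ofBijective _ (mp_bij S)

theorem ext_eS (D : Dat3b ι) (Λ : LS3b L ι) (S : Finset ι) (f : ↥(mp S) → L) :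
    (ext D).eS (extL Λ) (mp S) f =
      D.eSb Λ S (fun j => f (mpEq S j)) := by
  unfold Dat3.eS Dat3b.eSb
  rw [← (mpEq S).sum_comp]
  congr 1
  · refine sum_congr rfl fun j _ => ?_
    exact ext_lin D Λ _ j
  · rw [← (mpEq S).sum_comp]
    refine sum_congr rfl fun j _ => ?_
    rw [← (mpEq S).sum_comp]
    rfl

variable [PS ι] [Fintype L] [DecidableEq L]

open Classical in
/-- **The engine with a second class coordinate.** -/
theorem engine3b (D : Dat3b ι) (hD : D.OKb) {C₂ : ℝ}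
    (hC₂ : ∀ Y : ℕ, ((Sx ι Y).card : ℝ) ≤ C₂ * Y) (Λ : LS3b L ι) (hΛ : Λ.toLS3.OK)
    (ε : ℝ) (hε : 0 < ε) :
    ∃ X₀ : ℕ, ∀ X : ℕ, X₀ ≤ X →
      ‖∑ S ∈ (Sx ι X).filter (fun S => Disjoint S Λ.B),
          ((Λ.m : ℂ)⁻¹) ^ S.card * ∑ f : S → L, e3 (D.eSb Λ S f) -
        (Λ.Msb.card : ℂ) * ((Sx ι X).filter (fun S => Disjoint S Λ.B)).card‖ ≤ ε * X := by
  obtain ⟨X₀, h⟩ := Pool.Agent.Lib.MP_1a91b9_ntK.D.engine (ext D) (ext_OK hD hC₂) (extL Λ)
    (extL_OK hΛ) ε hε
  refine ⟨X₀, fun X hX => ?_⟩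
  have h1 := h X hX
  have hB : (extL Λ).B = insertNone Λ.B := rfl
  have hm : (extL Λ).m = Λ.m := rfl
  rw [extL_Ms, hB, hm] at h1
  have key : ∀ F : Finset (Option ι) → ℂ,
      ∑ S ∈ (Sx (Option ι) X).filter (fun S => Disjoint S (insertNone Λ.B)), F S =
        ∑ S ∈ (Sx ι X).filter (fun S => Disjoint S Λ.B), F (mp S) := by
    intro F
    rw [sum_filter, sum_filter, sum_Sx_opt]
    have h2 : ∑ S ∈ Sx ι (X / 3), (if Disjoint (insertNone S) (insertNone Λ.B) then
        F (insertNone S) else 0) = 0 := by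
      refine sum_eq_zero fun S _ => if_neg ?_
      rw [ins_disj_iff]
      exact fun h3 => h3.1 none_mem_insertNone
    rw [h2, add_zero]
    refine sum_congr rfl fun S _ => ?_
    refine if_congr ?_ rfl rfl
    rw [mp_disj_iff, erase_ins]
  have hcard : (((Sx (Option ι) X).filter (fun S => Disjoint S (insertNone Λ.B))).card : ℂ) =
      (((Sx ι X).filter (fun S => Disjoint S Λ.B)).card : ℂ) := by
    have h2 := key fun _ => 1
    rw [sum_const, sum_const, nsmul_eq_mul, nsmul_eq_mul, mul_one, mul_one] at h2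
    exact h2
  rw [hcard, key] at h1
  refine le_trans (le_of_eq ?_) h1
  congr 2
  refine sum_congr rfl fun S _ => ?_
  have hc : (mp S).card = S.card := card_map _
  rw [hc]
  congr 1
  simp only [ext_eS]
  refine (Fintype.sum_equiv (Equiv.arrowCongr (mpEq S) (Equiv.refl L))
    _ _ fun f => ?_)
  congr 2
  funext j
  simp [Equiv.arrowCongr]

end

end Pool.Agent.Lib.MP_1a91b9_ntK2
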