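import Pool.Agent.Lib.MP_1a91b9_ntK2.D.Gn

/-!
# MP_1a91b9_nt (cubic twists, all classes), part D: the matrices and the expansions
-/

set_option autoImplicit false

namespace Pool.Agent.Lib.MP_1a91b9_ntK

open Finset

section Mat

variable {ι : Type} [DecidableEq ι]

/-- The data with the combined linear coordinate `τ a + σ b`. -/
def Dat3b.tw (D : Dat3b ι) (τ σ : ZMod 3) : Dat3 ι where
  s := D.s
  a := fun q => τ * D.a q + σ * D.b q

/-- The bordered matrix `[[N, a], [aᵀ, κ]]`. -/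
def Dat3b.NB (D : Dat3b ι) (e : ι → ZMod 3) (τ σ κ : ZMod 3) (R : Finset ι) :
    Matrix (R ⊕ Unit) (R ⊕ Unit) (ZMod 3) :=
  Matrix.fromBlocks ((D.tw τ σ).N e 1 R) (Matrix.of fun j _ => D.a j)
    (Matrix.of fun _ j => D.a j) (Matrix.of fun _ _ => κ)

/-- The size of the kernel of the bordered matrix. -/
def Dat3b.kB (D : Dat3b ι) (e : ι → ZMod 3) (τ σ κ : ZMod 3) (R : Finset ι) : ℕ :=
  Fintype.card {v : R ⊕ Unit → ZMod 3 // (D.NB e τ σ κ R).mulVec v = 0}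

/-- The class `∑ e a`. -/
def Dat3b.cA (D : Dat3b ι) (e : ι → ZMod 3) (R : Finset ι) : ZMod 3 := ∑ q ∈ R, e q * D.a q

/-- The class `∑ e b`. -/
def Dat3b.cB (D : Dat3b ι) (e : ι → ZMod 3) (R : Finset ι) : ZMod 3 :=
  ∑ q ∈ R, e q * D.b q

end Mat

namespace Da

noncomputable section

variable {k : ℕ} {ι : Type} [DecidableEq ι]

theorem EE_tw (D : Dat3b ι) (e : ι → ZMod 3) (τ σ : ZMod 3) (R : Finset ι)
    (f : R → Lab3 k) :
    EE (D.tw τ σ) e 1 R f = EG D e (fun l => τ * Q3 l) (fun l => σ * Q3 l) R f := by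
  rw [EE, EG]
  congr 1
  refine sum_congr rfl fun j _ => ?_
  show e j * (1 * (τ * D.a j + σ * D.b j)) * Q3 (f j) = _
  ring

theorem EG_add (D : Dat3b ι) (e : ι → ZMod 3) (γ δ : Lab3 k → ZMod 3) (c c' : ZMod 3)
    (R : Finset ι) (f : R → Lab3 k) :
    EG D e (fun l => γ l + c) (fun l => δ l + c') R f =
      EG D e γ δ R f + (c * D.cA e R + c' * D.cB e R) := by
  have h1 : c * D.cA e R = ∑ j : R, c * (e j * D.a j) := by
    rw [Dat3b.cA, mul_sum, ← sum_coe_sort R fun q => c * (e q * D.a q)]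
  have h2 : c' * D.cB e R = ∑ j : R, c' * (e j * D.b j) := by
    rw [Dat3b.cB, mul_sum, ← sum_coe_sort R fun q => c' * (e q * D.b q)]
  rw [EG, EG, h1, h2, ← sum_add_distrib (f := fun j : R => c * (e j * D.a j))]
  have h3 : ∑ j : R, e j * ((γ (f j) + c) * D.a j + (δ (f j) + c') * D.b j) =
      ∑ j : R, e j * (γ (f j) * D.a j + δ (f j) * D.b j) +
        ∑ j : R, (c * (e j * D.a j) + c' * (e j * D.b j)) := by
    rw [← sum_add_distrib]
    exact sum_congr rfl fun j _ => by ring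
  rw [h3]
  ring

/-- The expansion for the matrix `N_{τ,σ}`. -/
theorem kc_Ex (D : Dat3b ι) (τ σ c c' : ZMod 3) (S T : Finset ι) :
    ((D.tw τ σ).kc (eT T) 1 (S ∪ T) : ℂ) ^ k *
        e3 (c * D.cA (eT T) (S ∪ T) + c' * D.cB (eT T) (S ∪ T)) =
      Ex D (k := k) (fun l => τ * Q3 l + c) (fun l => σ * Q3 l + c') T S := by
  have h1 := kc_pow_mul3 (k := k) (D.tw τ σ) (eT T) (eT_mul T) 1 (S ∪ T)
  have h0 : ((3 : ℂ) ^ k) ^ (S ∪ T).card ≠ 0 := pow_ne_zero _ (pow_ne_zero _ (by norm_num))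
  rw [Ex]
  have h2 : ∀ f : ↥(S ∪ T) → Lab3 k, e3 (EG D (eT T) (fun l => τ * Q3 l + c)
      (fun l => σ * Q3 l + c') (S ∪ T) f) = e3 (EE (D.tw τ σ) (eT T) 1 (S ∪ T) f) *
        e3 (c * D.cA (eT T) (S ∪ T) + c' * D.cB (eT T) (S ∪ T)) := fun f => by
    rw [EG_add, ← EE_tw, ← e3_add]
  simp only [h2]
  rw [← sum_mul, ← h1, inv_pow]
  generalize ((3 : ℂ) ^ k) ^ (S ∪ T).card = x at h0
  generalize ((D.tw τ σ).kc (eT T) 1 (S ∪ T) : ℂ) ^ k = y
  generalize e3 (c * D.cA (eT T) (S ∪ T) + c' * D.cB (eT T) (S ∪ T)) = z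
  field_simp

theorem kB_mul (D : Dat3b ι) (e : ι → ZMod 3) (τ σ κ : ZMod 3) (R : Finset ι) :
    (D.kB e τ σ κ R : ℂ) * (3 ^ R.card * 3) =
      ∑ p : (R ⊕ Unit → ZMod 3) × (R ⊕ Unit → ZMod 3),
        e3 (p.2 ⬝ᵥ (D.NB e τ σ κ R).mulVec p.1) := by
  rw [Fintype.sum_prod_type]
  have h1 : ∀ v : R ⊕ Unit → ZMod 3, ∑ w : R ⊕ Unit → ZMod 3,
      e3 (w ⬝ᵥ (D.NB e τ σ κ R).mulVec v) =
      if (D.NB e τ σ κ R).mulVec v = 0 then (3 ^ R.card * 3 : ℂ) else 0 := by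
    intro v
    rw [sum_dotR, Fintype.card_sum, Fintype.card_coe, Fintype.card_unit, pow_succ]
  simp only [h1]
  rw [← sum_filter, sum_const, nsmul_eq_mul, Dat3b.kB, Fintype.card_subtype]

/-- The bijection between the vectors and the labellings, bordered case. -/
def vecLabB (e : ι → ZMod 3) (he : ∀ i, e i * e i = 1) (R : Finset ι) :
    (Fin k → (R ⊕ Unit → ZMod 3) × (R ⊕ Unit → ZMod 3)) ≃ Lab3 k × (R → Lab3 k) where
  toFun g := ((fun i => (g i).1 (Sum.inr ()), fun i => (g i).2 (Sum.inr ())),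
    fun j => (fun i => e j * (g i).1 (Sum.inl j), fun i => e j * (g i).2 (Sum.inl j)))
  invFun p i := (Sum.elim (fun j => e j * (p.2 j).1 i) (fun _ => p.1.1 i),
    Sum.elim (fun j => e j * (p.2 j).2 i) (fun _ => p.1.2 i))
  left_inv g := by
    funext i
    refine Prod.ext (funext fun j => ?_) (funext fun j => ?_)
    · rcases j with j | j
      · show e j * (e j * (g i).1 (Sum.inl j)) = (g i).1 (Sum.inl j)
        rw [← mul_assoc, he, one_mul]
      · rfl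
    · rcases j with j | j
      · show e j * (e j * (g i).2 (Sum.inl j)) = (g i).2 (Sum.inl j)
        rw [← mul_assoc, he, one_mul]
      · rfl
  right_inv p := by
    refine Prod.ext rfl (funext fun j => Prod.ext (funext fun i => ?_) (funext fun i => ?_))
    · show e j * (e j * (p.2 j).1 i) = (p.2 j).1 i
      rw [← mul_assoc, he, one_mul]
    · show e j * (e j * (p.2 j).2 i) = (p.2 j).2 i
      rw [← mul_assoc, he, one_mul]

theorem exp_eqB (D : Dat3b ι) (e : ι → ZMod 3) (he : ∀ i, e i * e i = 1)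
    (τ σ κ : ZMod 3) (R : Finset ι) (g : Fin k → (R ⊕ Unit → ZMod 3) × (R ⊕ Unit → ZMod 3)) :
    ∑ i, (g i).2 ⬝ᵥ (D.NB e τ σ κ R).mulVec (g i).1 =
      κ * Q3 (vecLabB e he R g).1 + EG D e
        (fun l => τ * Q3 l + B3 l (vecLabB e he R g).1) (fun l => σ * Q3 l) R
          (vecLabB e he R g).2 := by
  have h1 : ∀ i, (g i).2 ⬝ᵥ (D.NB e τ σ κ R).mulVec (g i).1 =
      (fun j : R => (g i).2 (Sum.inl j)) ⬝ᵥ ((D.tw τ σ).N e 1 R).mulVec
          (fun j : R => (g i).1 (Sum.inl j)) +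
        ∑ j : R, D.a j * ((g i).2 (Sum.inl j) * (g i).1 (Sum.inr ()) +
          (g i).2 (Sum.inr ()) * (g i).1 (Sum.inl j)) +
        κ * ((g i).1 (Sum.inr ()) * (g i).2 (Sum.inr ())) := by
    intro i
    have h2 : (D.NB e τ σ κ R).mulVec (g i).1 = Sum.elim
        (((D.tw τ σ).N e 1 R).mulVec (fun j : R => (g i).1 (Sum.inl j)) +
          fun j : R => D.a j * (g i).1 (Sum.inr ()))
        (fun _ => ∑ j : R, D.a j * (g i).1 (Sum.inl j) + κ * (g i).1 (Sum.inr ())) := by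
      rw [Dat3b.NB, Matrix.fromBlocks_mulVec]
      funext x
      rcases x with j | j
      · refine congrArg (fun y => ((D.tw τ σ).N e 1 R).mulVec
          (fun j : R => (g i).1 (Sum.inl j)) j + y) ?_
        show ∑ u : Unit, D.a j * (g i).1 (Sum.inr u) = D.a j * (g i).1 (Sum.inr ())
        rw [Fintype.sum_unique]
      · refine congrArg (fun y => ∑ j : R, D.a j * (g i).1 (Sum.inl j) + y) ?_
        show ∑ u : Unit, κ * (g i).1 (Sum.inr u) = κ * (g i).1 (Sum.inr ())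
        rw [Fintype.sum_unique]
    rw [h2]
    have h3 : (g i).2 = Sum.elim (fun j : R => (g i).2 (Sum.inl j))
        (fun _ => (g i).2 (Sum.inr ())) := by
      funext x
      rcases x with j | j
      · rfl
      · rfl
    rw [h3, sumElim_dotProduct_sumElim, dotProduct_add]
    have h4 : (fun j : R => (g i).2 (Sum.inl j)) ⬝ᵥ (fun j : R => D.a j * (g i).1 (Sum.inr ())) =
        ∑ j : R, D.a j * ((g i).2 (Sum.inl j) * (g i).1 (Sum.inr ())) :=
      sum_congr rfl fun j _ => by ring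
    have h5 : (fun _ : Unit => (g i).2 (Sum.inr ())) ⬝ᵥ (fun _ : Unit =>
        ∑ j : R, D.a j * (g i).1 (Sum.inl j) + κ * (g i).1 (Sum.inr ())) =
        ∑ j : R, D.a j * ((g i).2 (Sum.inr ()) * (g i).1 (Sum.inl j)) +
          κ * ((g i).1 (Sum.inr ()) * (g i).2 (Sum.inr ())) := by
      rw [dotProduct, Fintype.sum_unique, mul_add, mul_sum]
      congr 1
      · exact sum_congr rfl fun j _ => by ring
      · ring
    rw [h4, h5]
    have h6 : ∑ j : R, D.a j * ((g i).2 (Sum.inl j) * (g i).1 (Sum.inr ()) +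
        (g i).2 (Sum.inr ()) * (g i).1 (Sum.inl j)) =
        ∑ j : R, D.a j * ((g i).2 (Sum.inl j) * (g i).1 (Sum.inr ())) +
          ∑ j : R, D.a j * ((g i).2 (Sum.inr ()) * (g i).1 (Sum.inl j)) := by
      rw [← sum_add_distrib]
      exact sum_congr rfl fun j _ => by ring
    simp only [Sum.elim_inl, Sum.elim_inr]
    rw [h6]
    ring
  simp only [h1, sum_add_distrib]
  have h7 := exp_eq3 (D.tw τ σ) e he 1 R fun i =>
    (fun j : R => (g i).1 (Sum.inl j), fun j : R => (g i).2 (Sum.inl j))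
  simp only at h7
  rw [h7, EE_tw]
  have h8 : EG D e (fun l => τ * Q3 l + B3 l (vecLabB e he R g).1) (fun l => σ * Q3 l) R
      (vecLabB e he R g).2 = EG D e (fun l => τ * Q3 l) (fun l => σ * Q3 l) R
      (vecLabB e he R g).2 + ∑ j : R, e j * (B3 ((vecLabB e he R g).2 j)
        (vecLabB e he R g).1 * D.a j) := by
    have h12 : ∑ j : R, e j * ((τ * Q3 ((vecLabB e he R g).2 j) +
        B3 ((vecLabB e he R g).2 j) (vecLabB e he R g).1) * D.a j +
          σ * Q3 ((vecLabB e he R g).2 j) * D.b j) =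
        ∑ j : R, e j * (τ * Q3 ((vecLabB e he R g).2 j) * D.a j +
          σ * Q3 ((vecLabB e he R g).2 j) * D.b j) +
        ∑ j : R, e j * (B3 ((vecLabB e he R g).2 j) (vecLabB e he R g).1 * D.a j) := by
      rw [← sum_add_distrib]
      exact sum_congr rfl fun j _ => by ring
    rw [EG, EG, h12]
    ring
  rw [h8]
  have h9 : ∑ i : Fin k, ∑ j : R, D.a j * ((g i).2 (Sum.inl j) * (g i).1 (Sum.inr ()) +
      (g i).2 (Sum.inr ()) * (g i).1 (Sum.inl j)) =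
      ∑ j : R, e j * (B3 ((vecLabB e he R g).2 j) (vecLabB e he R g).1 * D.a j) := by
    rw [sum_comm]
    refine sum_congr rfl fun j _ => ?_
    rw [B3, dotProduct, dotProduct, ← sum_add_distrib, sum_mul, mul_sum]
    refine sum_congr rfl fun i _ => ?_
    show _ = e j * ((e j * (g i).1 (Sum.inl j) * (g i).2 (Sum.inr ()) +
      (g i).1 (Sum.inr ()) * (e j * (g i).2 (Sum.inl j))) * D.a j)
    linear_combination (-(D.a j * ((g i).2 (Sum.inl j) * (g i).1 (Sum.inr ()) +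
      (g i).2 (Sum.inr ()) * (g i).1 (Sum.inl j)))) * he j
  have h10 : ∑ i : Fin k, κ * ((g i).1 (Sum.inr ()) * (g i).2 (Sum.inr ())) =
      κ * Q3 (vecLabB e he R g).1 := by
    rw [Q3, dotProduct, mul_sum]
    rfl
  rw [h9, h10]
  have h11 : EG D e (fun l => τ * Q3 l) (fun l => σ * Q3 l) R
      (fun j => (fun i => e j * (g i).1 (Sum.inl j), fun i => e j * (g i).2 (Sum.inl j))) =
      EG D e (fun l => τ * Q3 l) (fun l => σ * Q3 l) R (vecLabB e he R g).2 := rfl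
  rw [h11]
  ring

theorem kB_pow_mul (D : Dat3b ι) (e : ι → ZMod 3) (he : ∀ i, e i * e i = 1)
    (τ σ κ : ZMod 3) (R : Finset ι) :
    (D.kB e τ σ κ R : ℂ) ^ k * ((3 ^ k) ^ R.card * 3 ^ k) =
      ∑ m : Lab3 k, e3 (κ * Q3 m) * ∑ f : R → Lab3 k,
        e3 (EG D e (fun l => τ * Q3 l + B3 l m) (fun l => σ * Q3 l) R f) := by
  have h : ((3 : ℂ) ^ k) ^ R.card * 3 ^ k = (3 ^ R.card * 3) ^ k := by
    rw [mul_pow, ← pow_mul, ← pow_mul, mul_comm k]
  rw [h, ← mul_pow, kB_mul, Fintype.sum_pow]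
  have h2 : ∀ m : Lab3 k, e3 (κ * Q3 m) * ∑ f : R → Lab3 k,
      e3 (EG D e (fun l => τ * Q3 l + B3 l m) (fun l => σ * Q3 l) R f) =
      ∑ f : R → Lab3 k, e3 (κ * Q3 m + EG D e (fun l => τ * Q3 l + B3 l m)
        (fun l => σ * Q3 l) R f) := fun m => by
    rw [mul_sum]
    exact sum_congr rfl fun f _ => (e3_add _ _).symm
  simp only [h2]
  rw [← Fintype.sum_prod_type (fun p : Lab3 k × (R → Lab3 k) =>
    e3 (κ * Q3 p.1 + EG D e (fun l => τ * Q3 l + B3 l p.1) (fun l => σ * Q3 l) R p.2))]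
  refine Fintype.sum_equiv (vecLabB e he R) _ _ ?_
  intro g
  rw [← e3_sum, exp_eqB D e he]

/-- The expansion for the bordered matrix; the corner may contain a multiple of the class
`∑ e b`. -/
theorem kB_Ex (D : Dat3b ι) (τ σ κ κ' c c' : ZMod 3) (S T : Finset ι) :
    (D.kB (eT T) τ σ (κ + κ' * D.cB (eT T) (S ∪ T)) (S ∪ T) : ℂ) ^ k *
        e3 (c * D.cA (eT T) (S ∪ T) + c' * D.cB (eT T) (S ∪ T)) =
      (3 ^ k : ℂ)⁻¹ * ∑ m : Lab3 k, e3 (κ * Q3 m) *
        Ex D (fun l => τ * Q3 l + B3 l m + c) (fun l => σ * Q3 l + (κ' * Q3 m + c')) T S := by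
  have h1 := kB_pow_mul (k := k) D (eT T) (eT_mul T) τ σ
    (κ + κ' * D.cB (eT T) (S ∪ T)) (S ∪ T)
  have h0 : ((3 : ℂ) ^ k) ^ (S ∪ T).card ≠ 0 := pow_ne_zero _ (pow_ne_zero _ (by norm_num))
  have h0' : (3 : ℂ) ^ k ≠ 0 := pow_ne_zero _ (by norm_num)
  have h2 : ∀ m : Lab3 k, e3 (κ * Q3 m) *
        Ex D (fun l => τ * Q3 l + B3 l m + c) (fun l => σ * Q3 l + (κ' * Q3 m + c')) T S =
      (((3 : ℂ) ^ k)⁻¹) ^ (S ∪ T).card *
        e3 (c * D.cA (eT T) (S ∪ T) + c' * D.cB (eT T) (S ∪ T)) *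
        (e3 ((κ + κ' * D.cB (eT T) (S ∪ T)) * Q3 m) * ∑ f : ↥(S ∪ T) → Lab3 k,
          e3 (EG D (eT T) (fun l => τ * Q3 l + B3 l m) (fun l => σ * Q3 l) (S ∪ T) f)) := by
    intro m
    rw [Ex]
    have h3 : ∀ f : ↥(S ∪ T) → Lab3 k, e3 (EG D (eT T) (fun l => τ * Q3 l + B3 l m + c)
        (fun l => σ * Q3 l + (κ' * Q3 m + c')) (S ∪ T) f) =
        e3 (EG D (eT T) (fun l => τ * Q3 l + B3 l m) (fun l => σ * Q3 l) (S ∪ T) f) *
          e3 (c * D.cA (eT T) (S ∪ T) + (κ' * Q3 m + c') * D.cB (eT T) (S ∪ T)) := fun f => by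
      rw [EG_add, ← e3_add]
    simp only [h3]
    rw [← sum_mul]
    have h4 : e3 (κ * Q3 m) * e3 (c * D.cA (eT T) (S ∪ T) +
        (κ' * Q3 m + c') * D.cB (eT T) (S ∪ T)) =
        e3 ((κ + κ' * D.cB (eT T) (S ∪ T)) * Q3 m) *
          e3 (c * D.cA (eT T) (S ∪ T) + c' * D.cB (eT T) (S ∪ T)) := by
      rw [← e3_add, ← e3_add]
      congr 1
      ring
    linear_combination (((3 : ℂ) ^ k)⁻¹) ^ (S ∪ T).card * (∑ f : ↥(S ∪ T) → Lab3 k,
      e3 (EG D (eT T) (fun l => τ * Q3 l + B3 l m) (fun l => σ * Q3 l) (S ∪ T) f)) * h4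
  simp only [h2]
  rw [← mul_sum, ← h1, inv_pow]
  generalize ((3 : ℂ) ^ k) ^ (S ∪ T).card = x at h0
  generalize (3 : ℂ) ^ k = x' at h0'
  generalize (D.kB (eT T) τ σ (κ + κ' * D.cB (eT T) (S ∪ T)) (S ∪ T) : ℂ) ^ k = y
  generalize e3 (c * D.cA (eT T) (S ∪ T) + c' * D.cB (eT T) (S ∪ T)) = z
  field_simp

end

end Da

end Pool.Agent.Lib.MP_1a91b9_ntK
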