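import Pool.Agent.Lib.MP_1a91b9_ntK2.D.Engb
import Pool.Agent.Lib.MP_1a91b9_ntK.D.Mo3

/-!
# MP_1a91b9_nt (cubic twists, all classes), part D: general linear terms

The labels have arbitrary linear terms `γ l * a q + δ l * b q`.
-/

set_option autoImplicit false

namespace Pool.Agent.Lib.MP_1a91b9_ntK.Da

open Finset Pool.Agent.Lib.MP_1a91b9_ntH

noncomputable section

variable {k : ℕ} {ι : Type} [DecidableEq ι]

/-- The exponent of a labelling with general linear terms. -/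
def EG (D : Dat3b ι) (e : ι → ZMod 3) (γ δ : Lab3 k → ZMod 3) (R : Finset ι)
    (f : R → Lab3 k) : ZMod 3 :=
  ∑ j : R, e j * (γ (f j) * D.a j + δ (f j) * D.b j) +
    ∑ i : R, ∑ j : R, e i * e j * D.s i j * Phi3 (f i) (f j)

/-- The label system with general linear terms and fixed labels `t` at the primes of `T`. -/
def LSg (k : ℕ) (γ δ : Lab3 k → ZMod 3) (T : Finset ι) (t : ι → Lab3 k) :
    LS3b (Lab3 k) ι where
  Phi := Phi3
  c := γ
  d := δ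
  t := fun l p => -Q3 (l - t p)
  B := T
  m := 3 ^ k

theorem LSg_lk (γ δ : Lab3 k → ZMod 3) (T : Finset ι) (t : ι → Lab3 k)
    (l m : Lab3 k) : (LSg k γ δ T t).lk l m = Q3 (l - m) := Phi3_add l m

theorem LSg_Unl (γ δ : Lab3 k → ZMod 3) (T : Finset ι) (t : ι → Lab3 k)
    (U : Finset (Lab3 k)) : (LSg k γ δ T t).Unl U ↔ Unl3 U := by
  rw [LS3.Unl, Unl3]
  simp only [LSg_lk]

theorem LSg_OK {k : ℕ} (hk : 1 ≤ k) (γ δ : Lab3 k → ZMod 3) (T : Finset ι)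
    (t : ι → Lab3 k) : (LSg k γ δ T t).toLS3.OK where
  diag := Phi3_self
  two := by
    show 2 ≤ 3 ^ k
    calc 2 ≤ 3 ^ 1 := by norm_num
      _ ≤ 3 ^ k := Nat.pow_le_pow_right (by norm_num) hk
  k1 := fun U hU => K1 ((LSg_Unl γ δ T t U).1 hU)
  k2 := fun U hU hc x hx => by
    have hU' := (LSg_Unl γ δ T t U).1 hU
    have hc' : U.card = 3 ^ k := hc
    obtain ⟨l0, hl0⟩ := nonempty_of_card hc'
    by_contra hcon
    push Not at hcon
    refine hx (K2 hU' hc' (Q3 (l0 - x)) fun l hl => ?_)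
    have := hcon l hl l0 hl0
    rw [LSg_lk, LSg_lk] at this
    exact this

open Classical in
/-- The maximal unlinked sets on which both linear terms vanish. -/
def Gdg (k : ℕ) (γ δ : Lab3 k → ZMod 3) : Finset (Finset (Lab3 k)) :=
  univ.filter fun U => Unl3 U ∧ U.card = 3 ^ k ∧ ∀ l ∈ U, γ l = 0 ∧ δ l = 0

theorem mem_Gdg {γ δ : Lab3 k → ZMod 3} {U : Finset (Lab3 k)} :
    U ∈ Gdg k γ δ ↔ Unl3 U ∧ U.card = 3 ^ k ∧ ∀ l ∈ U, γ l = 0 ∧ δ l = 0 := by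
  classical
  rw [Gdg, mem_filter]
  exact ⟨fun h => h.2, fun h => ⟨mem_univ _, h⟩⟩

theorem mem_Ms_LSg {γ δ : Lab3 k → ZMod 3} {T : Finset ι}
    {t : ι → Lab3 k} {U : Finset (Lab3 k)} :
    U ∈ (LSg k γ δ T t).Msb ↔ U ∈ Gdg k γ δ ∧ ∀ p ∈ T, t p ∈ U := by
  rw [LS3b.mem_Msb, LS3.mem_Us, LSg_Unl, mem_Gdg, LS3b.Lin0b]
  constructor
  · rintro ⟨⟨h1, h2⟩, h3⟩
    exact ⟨⟨h1, h2, fun l hl => ⟨(h3 l hl).1, (h3 l hl).2.1⟩⟩, fun p hp =>
      K2 h1 h2 0 fun l hl => neg_eq_zero.1 ((h3 l hl).2.2 p hp)⟩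
  · rintro ⟨⟨h1, h2, h3⟩, h4⟩
    exact ⟨⟨h1, h2⟩, fun l hl => ⟨(h3 l hl).1, (h3 l hl).2, fun p hp =>
      neg_eq_zero.2 (h1 l hl _ (h4 p hp))⟩⟩

/-- The constant factor of the main term vanishes. -/
theorem EG_of_mem (D : Dat3b ι) (hs : D.Sym) {γ δ : Lab3 k → ZMod 3} {T : Finset ι}
    {t : T → Lab3 k} {U : Finset (Lab3 k)} (hU : U ∈ Gdg k γ δ) (ht : ∀ p, t p ∈ U) :
    EG D (eT T) γ δ T t = 0 := by
  obtain ⟨h1, h2, h3⟩ := mem_Gdg.1 hU
  have ha : ∑ j : T, eT T j * (γ (t j) * D.a j + δ (t j) * D.b j) = 0 := by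
    refine sum_eq_zero fun j _ => ?_
    rw [(h3 _ (ht j)).1, (h3 _ (ht j)).2, zero_mul, zero_mul, add_zero, mul_zero]
  have hb : ∑ i : T, ∑ j : T, eT T i * eT T j * D.s i j * Phi3 (t i) (t j) = 0 := by
    have hsym : ∑ i : T, ∑ j : T, eT T i * eT T j * D.s i j * Phi3 (t i) (t j) =
        ∑ i : T, ∑ j : T, eT T i * eT T j * D.s i j * Phi3 (t j) (t i) := by
      rw [sum_comm]
      refine sum_congr rfl fun i _ => sum_congr rfl fun j _ => ?_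
      by_cases hij : i = j
      · subst hij
        rfl
      · rw [hs j i fun h => hij (Subtype.ext h.symm)]
        ring
    have h4 : ∑ i : T, ∑ j : T, eT T i * eT T j * D.s i j * Phi3 (t i) (t j) +
        ∑ i : T, ∑ j : T, eT T i * eT T j * D.s i j * Phi3 (t j) (t i) = 0 := by
      rw [← sum_add_distrib]
      refine sum_eq_zero fun i _ => ?_
      rw [← sum_add_distrib]
      refine sum_eq_zero fun j _ => ?_
      have h5 : Phi3 (t i) (t j) + Phi3 (t j) (t i) = 0 := by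
        rw [Phi3_add]
        exact h1 _ (ht i) _ (ht j)
      linear_combination eT T i * eT T j * D.s i j * h5
    rw [← hsym] at h4
    have hd : ∀ x : ZMod 3, x + x = 0 → x = 0 := by decide
    exact hd _ h4
  rw [EG, ha, hb, add_zero]

/-- The sum of the main terms over the labellings of `T`. -/
theorem sum_Msg (D : Dat3b ι) (hs : D.Sym) (γ δ : Lab3 k → ZMod 3) (T : Finset ι) :
    ∑ t : T → Lab3 k, e3 (EG D (eT T) γ δ T t) *
        ((LSg k γ δ T (tE T t)).Msb.card : ℂ) = (3 ^ k) ^ T.card * (Gdg k γ δ).card := by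
  classical
  have h1 : ∀ t : T → Lab3 k, e3 (EG D (eT T) γ δ T t) *
      ((LSg k γ δ T (tE T t)).Msb.card : ℂ) =
      ∑ U ∈ (Gdg k γ δ).filter (fun U => ∀ p, t p ∈ U), 1 := by
    intro t
    have e : (LSg k γ δ T (tE T t)).Msb = (Gdg k γ δ).filter (fun U => ∀ p, t p ∈ U) := by
      ext U
      rw [mem_Ms_LSg, mem_filter]
      refine and_congr_right fun _ => ?_
      constructor
      · intro h p
        have := h p p.2
        rwa [tE_coe] at this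
      · intro h p hp
        have := h ⟨p, hp⟩
        rwa [← tE_coe T t ⟨p, hp⟩] at this
    rw [e, sum_const, nsmul_eq_mul, mul_one]
    by_cases hne : ((Gdg k γ δ).filter (fun U => ∀ p, t p ∈ U)).Nonempty
    · obtain ⟨U, hU⟩ := hne
      rw [mem_filter] at hU
      rw [EG_of_mem D hs hU.1 hU.2, e3_zero, one_mul]
    · rw [not_nonempty_iff_eq_empty] at hne
      rw [hne, card_empty, Nat.cast_zero, mul_zero]
  simp only [h1]
  have h2 : ∑ t : T → Lab3 k, ∑ U ∈ (Gdg k γ δ).filter (fun U => ∀ p, t p ∈ U), (1 : ℂ) =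
      ∑ U ∈ Gdg k γ δ, ∑ t ∈ univ.filter (fun t : T → Lab3 k => ∀ p, t p ∈ U), 1 := by
    refine sum_comm' ?_
    intro t U
    rw [mem_filter, mem_filter]
    tauto
  rw [h2]
  have h3 : ∀ U ∈ Gdg k γ δ, ∑ t ∈ univ.filter (fun t : T → Lab3 k => ∀ p, t p ∈ U), (1 : ℂ) =
      (3 ^ k) ^ T.card := by
    intro U hU
    rw [sum_const, nsmul_eq_mul, mul_one]
    have e : univ.filter (fun t : T → Lab3 k => ∀ p, t p ∈ U) =
        Fintype.piFinset fun _ : T => U := by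
      ext t
      rw [mem_filter, Fintype.mem_piFinset]
      exact ⟨fun h => h.2, fun h => ⟨mem_univ _, h⟩⟩
    rw [e, Fintype.card_piFinset, prod_const, card_univ, Fintype.card_coe, (mem_Gdg.1 hU).2.1]
    push_cast
    rfl
  rw [sum_congr rfl h3, sum_const, nsmul_eq_mul, mul_comm]

/-! ### Separation of the fixed primes -/

/-- The exponent of a labelling given by a function on all primes. -/
def EGF (D : Dat3b ι) (e : ι → ZMod 3) (γ δ : Lab3 k → ZMod 3) (R : Finset ι)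
    (F : ι → Lab3 k) : ZMod 3 :=
  ∑ j ∈ R, e j * (γ (F j) * D.a j + δ (F j) * D.b j) +
    ∑ i ∈ R, ∑ j ∈ R, e i * e j * D.s i j * Phi3 (F i) (F j)

theorem EG_eq_EGF (D : Dat3b ι) (e : ι → ZMod 3) (γ δ : Lab3 k → ZMod 3)
    (R : Finset ι) (f : R → Lab3 k) (F : ι → Lab3 k) (h : ∀ j : R, F j = f j) :
    EG D e γ δ R f = EGF D e γ δ R F := by
  rw [EG, EGF]
  congr 1
  · rw [← sum_coe_sort R fun j => e j * (γ (F j) * D.a j + δ (F j) * D.b j)]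
    exact sum_congr rfl fun j _ => by rw [h j]
  · rw [← sum_coe_sort R fun i => ∑ j ∈ R, e i * e j * D.s i j * Phi3 (F i) (F j)]
    refine sum_congr rfl fun i _ => ?_
    rw [← sum_coe_sort R fun j => e i * e j * D.s i j * Phi3 (F i) (F j)]
    exact sum_congr rfl fun j _ => by rw [h i, h j]

theorem eSg_eq (D : Dat3b ι) (γ δ : Lab3 k → ZMod 3) (S T : Finset ι)
    (t F : ι → Lab3 k) (f : S → Lab3 k) (h : ∀ j : S, F j = f j) :
    D.eSb (LSg k γ δ T t) S f =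
      ∑ j ∈ S, (γ (F j) * D.a j + δ (F j) * D.b j + ∑ p ∈ T, -Q3 (F j - t p) * D.s j p) +
        ∑ i ∈ S, ∑ j ∈ S, Phi3 (F i) (F j) * D.s i j := by
  rw [Dat3b.eSb]
  congr 1
  · rw [← sum_coe_sort S fun j => (γ (F j) * D.a j + δ (F j) * D.b j +
      ∑ p ∈ T, -Q3 (F j - t p) * D.s j p)]
    exact sum_congr rfl fun j _ => by rw [h j]; rfl
  · rw [← sum_coe_sort S fun i => ∑ j ∈ S, Phi3 (F i) (F j) * D.s i j]
    refine sum_congr rfl fun i _ => ?_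
    rw [← sum_coe_sort S fun j => Phi3 (F i) (F j) * D.s i j]
    exact sum_congr rfl fun j _ => by rw [h i, h j]; rfl

theorem EGF_union (D : Dat3b ι) (hs : D.Sym) (γ δ : Lab3 k → ZMod 3) {S T : Finset ι}
    (hST : Disjoint S T) (F : ι → Lab3 k) : EGF D (eT T) γ δ (S ∪ T) F =
      (∑ j ∈ S, (γ (F j) * D.a j + δ (F j) * D.b j + ∑ p ∈ T, -Q3 (F j - F p) * D.s j p) +
        ∑ i ∈ S, ∑ j ∈ S, Phi3 (F i) (F j) * D.s i j) + EGF D (eT T) γ δ T F := by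
  have hS : ∀ j ∈ S, eT T j = 1 := fun j hj => if_neg (disjoint_left.1 hST hj)
  have hT : ∀ p ∈ T, eT T p = -1 := fun p hp => if_pos hp
  rw [EGF, EGF, sum_union hST, sum_union hST]
  have h1 : ∑ j ∈ S, eT T j * (γ (F j) * D.a j + δ (F j) * D.b j) =
      ∑ j ∈ S, (γ (F j) * D.a j + δ (F j) * D.b j) :=
    sum_congr rfl fun j hj => by rw [hS j hj, one_mul]
  have h2 : ∀ i ∈ S, ∑ j ∈ S ∪ T, eT T i * eT T j * D.s i j * Phi3 (F i) (F j) =
      ∑ j ∈ S, Phi3 (F i) (F j) * D.s i j - ∑ p ∈ T, Phi3 (F i) (F p) * D.s i p := by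
    intro i hi
    rw [sum_union hST, sub_eq_add_neg, ← sum_neg_distrib]
    congr 1
    · exact sum_congr rfl fun j hj => by rw [hS i hi, hS j hj]; ring
    · exact sum_congr rfl fun j hj => by rw [hS i hi, hT j hj]; ring
  have h3 : ∀ p ∈ T, ∑ j ∈ S ∪ T, eT T p * eT T j * D.s p j * Phi3 (F p) (F j) =
      -∑ j ∈ S, Phi3 (F p) (F j) * D.s j p +
        ∑ j ∈ T, eT T p * eT T j * D.s p j * Phi3 (F p) (F j) := by
    intro p hp
    rw [sum_union hST, ← sum_neg_distrib]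
    congr 1
    refine sum_congr rfl fun j hj => ?_
    rw [hS j hj, hT p hp, hs p j fun h => disjoint_left.1 hST hj (h ▸ hp)]
    ring
  rw [sum_congr rfl h2, sum_congr rfl h3, h1, sum_sub_distrib,
    sum_add_distrib (f := fun p => -∑ j ∈ S, Phi3 (F p) (F j) * D.s j p), sum_neg_distrib]
  have h4 : ∑ p ∈ T, ∑ j ∈ S, Phi3 (F p) (F j) * D.s j p =
      ∑ j ∈ S, ∑ p ∈ T, Phi3 (F p) (F j) * D.s j p := sum_comm
  have h5 : ∑ j ∈ S, (γ (F j) * D.a j + δ (F j) * D.b j +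
      ∑ p ∈ T, -Q3 (F j - F p) * D.s j p) =
      ∑ j ∈ S, (γ (F j) * D.a j + δ (F j) * D.b j) -
        ∑ j ∈ S, ∑ p ∈ T, Phi3 (F j) (F p) * D.s j p -
        ∑ j ∈ S, ∑ p ∈ T, Phi3 (F p) (F j) * D.s j p := by
    rw [← sum_sub_distrib, ← sum_sub_distrib]
    refine sum_congr rfl fun j _ => ?_
    have h6 : ∑ p ∈ T, -Q3 (F j - F p) * D.s j p =
        -(∑ p ∈ T, Phi3 (F j) (F p) * D.s j p) - ∑ p ∈ T, Phi3 (F p) (F j) * D.s j p := by
      rw [← sum_neg_distrib, ← sum_sub_distrib]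
      refine sum_congr rfl fun p _ => ?_
      rw [← Phi3_add]
      ring
    rw [h6]
    ring
  rw [h4, h5]
  ring

theorem EG_union (D : Dat3b ι) (hs : D.Sym) (γ δ : Lab3 k → ZMod 3) {S T : Finset ι}
    (hST : Disjoint S T) (f : S → Lab3 k) (t : T → Lab3 k) :
    EG D (eT T) γ δ (S ∪ T) ((unEq (Lab3 k) hST).symm (f, t)) =
      D.eSb (LSg k γ δ T (tE T t)) S f + EG D (eT T) γ δ T t := by
  set g := (unEq (Lab3 k) hST).symm (f, t) with hg
  have hgS : ∀ j : S, tE (S ∪ T) g j = f j := fun j => by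
    have h1 : (j : ι) ∈ S ∪ T := mem_union_left _ j.2
    rw [tE, dif_pos h1]
    show (if h : (j : ι) ∈ S then f ⟨j, h⟩ else _) = _
    rw [dif_pos j.2]
  have hgT : ∀ p : T, tE (S ∪ T) g p = t p := fun p => by
    have h1 : (p : ι) ∈ S ∪ T := mem_union_right _ p.2
    rw [tE, dif_pos h1]
    show (if h : (p : ι) ∈ S then f ⟨p, h⟩ else _) = _
    rw [dif_neg fun h => disjoint_left.1 hST h p.2]
  rw [EG_eq_EGF D (eT T) γ δ (S ∪ T) g (tE (S ∪ T) g) fun j => tE_coe _ _ _,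
    EGF_union D hs γ δ hST, eSg_eq D γ δ S T (tE T t) (tE (S ∪ T) g) f hgS,
    EG_eq_EGF D (eT T) γ δ T t (tE (S ∪ T) g) hgT]
  refine congrArg (· + EGF D (eT T) γ δ T (tE (S ∪ T) g)) (congrArg (· + ∑ i ∈ S, ∑ j ∈ S,
    Phi3 (tE (S ∪ T) g i) (tE (S ∪ T) g j) * D.s i j) (sum_congr rfl fun j _ =>
    congrArg (fun x => γ (tE (S ∪ T) g j) * D.a j + δ (tE (S ∪ T) g j) * D.b j + x)
      (sum_congr rfl fun p hp => ?_)))
  rw [hgT ⟨p, hp⟩, ← tE_coe T t ⟨p, hp⟩]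

/-- The normalised sum over the labellings of `S ∪ T`. -/
def Ex (D : Dat3b ι) (γ δ : Lab3 k → ZMod 3) (T S : Finset ι) : ℂ :=
  (((3 : ℂ) ^ k)⁻¹) ^ (S ∪ T).card * ∑ f : ↥(S ∪ T) → Lab3 k, e3 (EG D (eT T) γ δ (S ∪ T) f)

theorem Ex_mul (D : Dat3b ι) (hs : D.Sym) (γ δ : Lab3 k → ZMod 3) {S T : Finset ι}
    (hST : Disjoint S T) :
    Ex D γ δ T S * (3 ^ k) ^ T.card =
      ∑ t : T → Lab3 k, e3 (EG D (eT T) γ δ T t) *
        ((((3 : ℂ) ^ k)⁻¹) ^ S.card *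
          ∑ f : S → Lab3 k, e3 (D.eSb (LSg k γ δ T (tE T t)) S f)) := by
  have h2 : ∑ f : ↥(S ∪ T) → Lab3 k, e3 (EG D (eT T) γ δ (S ∪ T) f) =
      ∑ t : T → Lab3 k, e3 (EG D (eT T) γ δ T t) *
        ∑ f : S → Lab3 k, e3 (D.eSb (LSg k γ δ T (tE T t)) S f) := by
    calc _ = ∑ p : (S → Lab3 k) × (T → Lab3 k),
          e3 (EG D (eT T) γ δ (S ∪ T) ((unEq (Lab3 k) hST).symm p)) :=
        (Equiv.sum_comp (unEq (Lab3 k) hST).symm
          fun f => e3 (EG D (eT T) γ δ (S ∪ T) f)).symm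
      _ = _ := by
        rw [Fintype.sum_prod_type_right]
        refine sum_congr rfl fun t _ => ?_
        refine (sum_congr rfl fun f _ => ?_).trans (mul_sum _ _ _).symm
        rw [← e3_add, EG_union D hs γ δ, add_comm]
  have h3 : ∑ t : T → Lab3 k, e3 (EG D (eT T) γ δ T t) *
        ((((3 : ℂ) ^ k)⁻¹) ^ S.card *
          ∑ f : S → Lab3 k, e3 (D.eSb (LSg k γ δ T (tE T t)) S f)) =
      (((3 : ℂ) ^ k)⁻¹) ^ S.card * ∑ t : T → Lab3 k, e3 (EG D (eT T) γ δ T t) *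
        ∑ f : S → Lab3 k, e3 (D.eSb (LSg k γ δ T (tE T t)) S f) := by
    rw [mul_sum]
    exact sum_congr rfl fun t _ => by ring
  rw [h3, ← h2, Ex, card_union_of_disjoint hST, pow_add]
  have h0 : ((3 : ℂ) ^ k) ^ T.card ≠ 0 := pow_ne_zero _ (pow_ne_zero _ (by norm_num))
  have h4 : (((3 : ℂ) ^ k)⁻¹) ^ T.card * (3 ^ k) ^ T.card = 1 := by
    rw [inv_pow, inv_mul_cancel₀ h0]
  linear_combination (((3 : ℂ) ^ k)⁻¹) ^ S.card *
    (∑ f : ↥(S ∪ T) → Lab3 k, e3 (EG D (eT T) γ δ (S ∪ T) f)) * h4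

variable [PS ι]

/-- The limit of the normalised sums, `k ≥ 1`. -/
theorem Ex_pos {D : Dat3b ι} (hD : D.OKb) {C₂ : ℝ}
    (hC₂ : ∀ Y : ℕ, ((Sx ι Y).card : ℝ) ≤ C₂ * Y) {k : ℕ} (hk : 1 ≤ k)
    (γ δ : Lab3 k → ZMod 3) (T : Finset ι) (ε : ℝ) (hε : 0 < ε) :
    ∃ X₀ : ℕ, ∀ X : ℕ, X₀ ≤ X →
    ‖∑ S ∈ SxT T X, Ex D γ δ T S -
      ((Gdg k γ δ).card : ℂ) * ((SxT T X).card : ℂ)‖ ≤ ε * X := by
  have hN : (0 : ℝ) < Fintype.card (T → Lab3 k) := by
    exact_mod_cast Fintype.card_pos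
  choose X0 h0 using fun t : T → Lab3 k =>
    Pool.Agent.Lib.MP_1a91b9_ntK2.engine3b D hD hC₂ (LSg k γ δ T (tE T t))
      (LSg_OK hk γ δ T (tE T t)) (ε / Fintype.card (T → Lab3 k)) (by positivity)
  refine ⟨∑ t, X0 t, fun X hX => ?_⟩
  have hXt : ∀ t, X0 t ≤ X := fun t =>
    (single_le_sum (fun _ _ => Nat.zero_le _) (mem_univ t)).trans hX
  have hm : ∀ t : T → Lab3 k, (((LSg k γ δ T (tE T t)).m : ℕ) : ℂ) = 3 ^ k := fun t => by
    show (((3 ^ k : ℕ)) : ℂ) = 3 ^ k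
    push_cast
    rfl
  have e1 : (∑ S ∈ SxT T X, Ex D γ δ T S -
      ((Gdg k γ δ).card : ℂ) * ((SxT T X).card : ℂ)) * (3 ^ k) ^ T.card =
      ∑ t : T → Lab3 k, e3 (EG D (eT T) γ δ T t) *
        (∑ S ∈ SxT T X, ((((LSg k γ δ T (tE T t)).m : ℂ)⁻¹) ^ S.card *
          ∑ f : S → Lab3 k, e3 (D.eSb (LSg k γ δ T (tE T t)) S f)) -
        ((LSg k γ δ T (tE T t)).Msb.card : ℂ) * ((SxT T X).card : ℂ)) := by
    have h2 : ((Gdg k γ δ).card : ℂ) * ((SxT T X).card : ℂ) * (3 ^ k) ^ T.card =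
        (∑ t : T → Lab3 k, e3 (EG D (eT T) γ δ T t) *
          ((LSg k γ δ T (tE T t)).Msb.card : ℂ)) * ((SxT T X).card : ℂ) := by
      rw [sum_Msg D hD.ok.sym γ δ T]
      ring
    have h3 : (∑ S ∈ SxT T X, Ex D γ δ T S) * (3 ^ k) ^ T.card =
        ∑ t : T → Lab3 k, e3 (EG D (eT T) γ δ T t) *
        ∑ S ∈ SxT T X, ((((LSg k γ δ T (tE T t)).m : ℂ)⁻¹) ^ S.card *
          ∑ f : S → Lab3 k, e3 (D.eSb (LSg k γ δ T (tE T t)) S f)) := by
      rw [sum_mul]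
      have h4 : ∀ S ∈ SxT T X, Ex D γ δ T S * (3 ^ k) ^ T.card =
          ∑ t : T → Lab3 k, e3 (EG D (eT T) γ δ T t) *
            ((((3 : ℂ) ^ k)⁻¹) ^ S.card *
              ∑ f : S → Lab3 k, e3 (D.eSb (LSg k γ δ T (tE T t)) S f)) := fun S hS =>
        Ex_mul D hD.ok.sym γ δ (mem_SxT.1 hS).2
      rw [sum_congr rfl h4, sum_comm]
      refine sum_congr rfl fun t _ => ?_
      rw [mul_sum]
      exact sum_congr rfl fun S _ => by rw [hm t]
    rw [sub_mul, h3, h2, sum_mul, ← sum_sub_distrib]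
    exact sum_congr rfl fun t _ => by ring
  have h3 : (1 : ℝ) ≤ ‖((3 : ℂ) ^ k) ^ T.card‖ := by
    rw [norm_pow, norm_pow]
    exact one_le_pow₀ (one_le_pow₀ (by norm_num))
  calc ‖∑ S ∈ SxT T X, Ex D γ δ T S -
      ((Gdg k γ δ).card : ℂ) * ((SxT T X).card : ℂ)‖
      ≤ ‖∑ S ∈ SxT T X, Ex D γ δ T S -
      ((Gdg k γ δ).card : ℂ) * ((SxT T X).card : ℂ)‖ *
        ‖((3 : ℂ) ^ k) ^ T.card‖ := le_mul_of_one_le_right (norm_nonneg _) h3
    _ = ‖∑ t : T → Lab3 k, e3 (EG D (eT T) γ δ T t) *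
        (∑ S ∈ SxT T X, ((((LSg k γ δ T (tE T t)).m : ℂ)⁻¹) ^ S.card *
          ∑ f : S → Lab3 k, e3 (D.eSb (LSg k γ δ T (tE T t)) S f)) -
        ((LSg k γ δ T (tE T t)).Msb.card : ℂ) * ((SxT T X).card : ℂ))‖ := by
      rw [← norm_mul, e1]
    _ ≤ ∑ t : T → Lab3 k, ε / Fintype.card (T → Lab3 k) * X := by
      refine (norm_sum_le _ _).trans (sum_le_sum fun t _ => ?_)
      rw [norm_mul, norm_e3, one_mul]
      exact h0 t X (hXt t)
    _ = ε * X := by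
      rw [sum_const, card_univ, nsmul_eq_mul]
      field_simp

end

end Pool.Agent.Lib.MP_1a91b9_ntK.Da
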