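import Pool.Agent.Lib.MP_1a91b9_ntK.D.Defsb

/-!
# MP_1a91b9_nt (cubic twists), part D: one more prime

`Option ι` is the set of the primes of `ι` and one more prime `none` of norm `3`. The symbols at `none`
are a second linear term.
-/

set_option autoImplicit false

namespace Pool.Agent.Lib.MP_1a91b9_ntK2

open Finset Pool.Agent.Lib.MP_1a91b9_ntH Pool.Agent.Lib.MP_1a91b9_ntK

noncomputable section

/-- One more prime of norm `3`. -/
instance optPS (ι : Type) [PS ι] : PS (Option ι) where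
  N q := q.elim 3 PS.N
  two_le q := by
    cases q with
    | none => norm_num
    | some q => exact PS.two_le q
  fin x := by
    have h := ((PS.fin (ι := ι) x).image some).insert none
    refine h.subset ?_
    rintro (_ | q) hq
    · exact Set.mem_insert _ _
    · exact Set.mem_insert_of_mem _ ⟨q, hq, rfl⟩

section

variable {ι : Type}

theorem N_none [PS ι] : PS.N (none : Option ι) = 3 := rfl

theorem N_some [PS ι] (q : ι) : PS.N (some q) = PS.N q := rfl

/-- The set as a set of primes different from `none`. -/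
def mp (S : Finset ι) : Finset (Option ι) := S.map Function.Embedding.some

theorem mem_mp {S : Finset ι} {q : ι} : some q ∈ mp S ↔ q ∈ S := by
  simp [mp]

theorem none_notMem_mp (S : Finset ι) : none ∉ mp S := by
  simp [mp]

theorem mp_erase {S : Finset (Option ι)} (h : none ∉ S) : mp (eraseNone S) = S := by
  ext q
  cases q with
  | none => exact ⟨fun h1 => absurd h1 (none_notMem_mp _), fun h1 => absurd h1 h⟩
  | some q => rw [mem_mp, mem_eraseNone]

theorem erase_mp (S : Finset ι) : eraseNone (mp S) = S := by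
  ext q
  rw [mem_eraseNone, mem_mp]

theorem ins_erase {S : Finset (Option ι)} (h : none ∈ S) : insertNone (eraseNone S) = S := by
  ext q
  cases q with
  | none => exact ⟨fun _ => h, fun _ => none_mem_insertNone⟩
  | some q => rw [some_mem_insertNone, mem_eraseNone]

theorem erase_ins (S : Finset ι) : eraseNone (insertNone S) = S := by
  ext q
  rw [mem_eraseNone, some_mem_insertNone]

theorem mp_disj {S T : Finset ι} : Disjoint (mp S) (mp T) ↔ Disjoint S T := by
  unfold mp
  exact disjoint_map _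

theorem mp_disj_iff {S : Finset ι} {B : Finset (Option ι)} :
    Disjoint (mp S) B ↔ Disjoint S (eraseNone B) := by
  rw [disjoint_left, disjoint_left]
  constructor
  · intro h q hq hqB
    exact h (mem_mp.2 hq) (mem_eraseNone.1 hqB)
  · intro h q hq hqB
    cases q with
    | none => exact none_notMem_mp _ hq
    | some q => exact h (mem_mp.1 hq) (mem_eraseNone.2 hqB)

theorem ins_disj_iff {S : Finset ι} {B : Finset (Option ι)} :
    Disjoint (insertNone S) B ↔ none ∉ B ∧ Disjoint S (eraseNone B) := by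
  rw [disjoint_left, disjoint_left]
  constructor
  · intro h
    exact ⟨h none_mem_insertNone, fun q hq hqB => h (some_mem_insertNone.2 hq) (mem_eraseNone.1 hqB)⟩
  · rintro ⟨h0, h⟩ q hq hqB
    cases q with
    | none => exact h0 hqB
    | some q => exact h (some_mem_insertNone.1 hq) (mem_eraseNone.2 hqB)

theorem prod_mp {M : Type*} [CommMonoid M] (S : Finset ι) (f : Option ι → M) :
    ∏ q ∈ mp S, f q = ∏ q ∈ S, f (some q) := prod_map _ _ _

theorem sum_mp {M : Type*} [AddCommMonoid M] (S : Finset ι) (f : Option ι → M) :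
    ∑ q ∈ mp S, f q = ∑ q ∈ S, f (some q) := sum_map _ _ _

variable [DecidableEq ι] [PS ι]

theorem nm_mp (S : Finset ι) : nm (mp S) = nm S := prod_mp S _

theorem nm_ins (S : Finset ι) : nm (insertNone S) = 3 * nm S := by
  unfold nm
  rw [prod_insertNone]
  rfl

theorem nm_erase_le (S : Finset (Option ι)) : nm (eraseNone S) ≤ nm S := by
  by_cases h : none ∈ S
  · conv_rhs => rw [← ins_erase h]
    rw [nm_ins]
    omega
  · conv_rhs => rw [← mp_erase h]
    rw [nm_mp]

/-- The squarefree integers of the larger system. -/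
theorem sum_Sx_opt {M : Type*} [AddCommMonoid M] (X : ℕ) (F : Finset (Option ι) → M) :
    ∑ S ∈ Sx (Option ι) X, F S =
      ∑ S ∈ Sx ι X, F (mp S) + ∑ S ∈ Sx ι (X / 3), F (insertNone S) := by
  classical
  rw [← sum_filter_add_sum_filter_not (Sx (Option ι) X) (fun S => none ∉ S)]
  congr 1
  · symm
    refine sum_nbij' mp (fun S => eraseNone S) ?_ ?_ ?_ ?_ ?_
    · intro S hS
      rw [mem_Sx] at hS
      rw [mem_filter, mem_Sx, nm_mp]
      exact ⟨hS, none_notMem_mp S⟩
    · intro S hS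
      rw [mem_filter, mem_Sx] at hS
      rw [mem_Sx, ← nm_mp, mp_erase hS.2]
      exact hS.1
    · intro S _
      exact erase_mp S
    · intro S hS
      exact mp_erase (mem_filter.1 hS).2
    · intro S _
      rfl
  · symm
    refine sum_nbij' (fun S => insertNone S) (fun S => eraseNone S) ?_ ?_ ?_ ?_ ?_
    · intro S hS
      rw [mem_Sx, Nat.le_div_iff_mul_le (by norm_num)] at hS
      rw [mem_filter, mem_Sx, nm_ins, not_not]
      exact ⟨by omega, none_mem_insertNone⟩
    · intro S hS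
      rw [mem_filter, mem_Sx, not_not] at hS
      rw [mem_Sx, Nat.le_div_iff_mul_le (by norm_num), mul_comm, ← nm_ins, ins_erase hS.2]
      exact hS.1
    · intro S _
      exact erase_ins S
    · intro S hS
      exact ins_erase (not_not.1 (mem_filter.1 hS).2)
    · intro S _
      rfl

omit [DecidableEq ι] in
/-- The primes of the larger system. -/
theorem prod_pr_opt (x : ℕ) (f : Option ι → ℝ) :
    ∏ q ∈ pr (Option ι) x, f q =
      (if 3 ≤ x then f none else 1) * ∏ q ∈ pr ι x, f (some q) := by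
  classical
  by_cases h : 3 ≤ x
  · rw [if_pos h, ← prod_insertNone]
    refine prod_congr ?_ fun _ _ => rfl
    ext q
    cases q with
    | none => exact ⟨fun _ => none_mem_insertNone, fun _ => mem_pr.2 h⟩
    | some q => rw [some_mem_insertNone, mem_pr, mem_pr, N_some]
  · rw [if_neg h, one_mul, ← prod_mp]
    refine prod_congr ?_ fun _ _ => rfl
    ext q
    cases q with
    | none => exact ⟨fun h1 => absurd (mem_pr.1 h1) h, fun h1 => absurd h1 (none_notMem_mp _)⟩
    | some q => rw [mem_mp, mem_pr, mem_pr, N_some]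

omit [DecidableEq ι] in
theorem sum_pr_opt (x : ℕ) (f : Option ι → ℝ) :
    ∑ q ∈ pr (Option ι) x, f q =
      (if 3 ≤ x then f none else 0) + ∑ q ∈ pr ι x, f (some q) := by
  classical
  by_cases h : 3 ≤ x
  · rw [if_pos h, ← sum_insertNone]
    refine sum_congr ?_ fun _ _ => rfl
    ext q
    cases q with
    | none => exact ⟨fun _ => none_mem_insertNone, fun _ => mem_pr.2 h⟩
    | some q => rw [some_mem_insertNone, mem_pr, mem_pr, N_some]
  · rw [if_neg h, zero_add, ← sum_mp]
    refine sum_congr ?_ fun _ _ => rfl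
    ext q
    cases q with
    | none => exact ⟨fun h1 => absurd (mem_pr.1 h1) h, fun h1 => absurd h1 (none_notMem_mp _)⟩
    | some q => rw [mem_mp, mem_pr, mem_pr, N_some]

omit [DecidableEq ι] in
theorem cheb_opt {C : ℝ} (h : Cheb ι C) : Cheb (Option ι) (C + 2) := by
  intro x
  rw [sum_pr_opt]
  have h1 := h x
  have h2 : (if 3 ≤ x then Real.log ((PS.N (none : Option ι) : ℕ) : ℝ) else 0) ≤ 2 * x := by
    split_ifs with h3
    · have h4 : Real.log ((PS.N (none : Option ι) : ℕ) : ℝ) ≤ 3 := by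
        rw [N_none]
        have := Real.log_le_sub_one_of_pos (x := (3 : ℝ)) (by norm_num)
        push_cast
        linarith
      have h5 : (3 : ℝ) ≤ x := by exact_mod_cast h3
      linarith
    · positivity
  have h3 : ∑ q ∈ pr ι x, Real.log ((PS.N (some q) : ℕ) : ℝ) = ∑ q ∈ pr ι x, Real.log (PS.N q) := rfl
  linarith

theorem rpow_three (σ : ℝ) (h : 1 < σ) : (0 : ℝ) ≤ (3 : ℝ) ^ (-σ) ∧ (3 : ℝ) ^ (-σ) ≤ 1 / 3 := by
  refine ⟨by positivity, ?_⟩
  calc (3 : ℝ) ^ (-σ) ≤ (3 : ℝ) ^ (-1 : ℝ) :=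
        Real.rpow_le_rpow_of_exponent_le (by norm_num) (by linarith)
    _ = 1 / 3 := by rw [Real.rpow_neg_one]; norm_num

omit [DecidableEq ι] in
theorem factor_le {v σ : ℝ} (hv : |v| ≤ 1) (h : 1 < σ) :
    0 ≤ (1 - v * ((PS.N (none : Option ι) : ℕ) : ℝ) ^ (-σ))⁻¹ ∧
      (1 - v * ((PS.N (none : Option ι) : ℕ) : ℝ) ^ (-σ))⁻¹ ≤ 2 := by
  rw [N_none]
  push_cast
  obtain ⟨h1, h2⟩ := rpow_three σ h
  have h3 := abs_le.1 hv
  have h4 : 1 / 2 ≤ 1 - v * (3 : ℝ) ^ (-σ) := by nlinarith
  refine ⟨inv_nonneg.2 (by linarith), ?_⟩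
  rw [inv_le_comm₀ (by linarith) (by norm_num)]
  linarith

omit [DecidableEq ι] in
theorem zt_opt {C : ℝ} (h : Zt ι C) : Zt (Option ι) (2 * C) := by
  intro σ x h1 h2
  rw [prod_pr_opt]
  have h3 := h σ x h1 h2
  have hpos : ∀ q ∈ pr ι x, (0 : ℝ) ≤ (1 - ((PS.N (some q) : ℕ) : ℝ) ^ (-σ))⁻¹ := by
    intro q _
    rw [N_some]
    apply inv_nonneg.2
    have h4 : (1 : ℝ) ≤ (PS.N q : ℝ) := by
      have := PS.two_le q
      exact_mod_cast (by omega)
    have h5 := Real.rpow_le_one_of_one_le_of_nonpos h4 (by linarith : -σ ≤ 0)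
    linarith
  have h6 : (0 : ℝ) ≤ ∏ q ∈ pr ι x, (1 - ((PS.N (some q) : ℕ) : ℝ) ^ (-σ))⁻¹ := prod_nonneg hpos
  have h7 : (if 3 ≤ x then (1 - ((PS.N (none : Option ι) : ℕ) : ℝ) ^ (-σ))⁻¹ else 1) ≤ 2 := by
    split_ifs
    · have := (factor_le (ι := ι) (v := 1) (by norm_num) h1).2
      rwa [one_mul] at this
    · norm_num
  calc _ ≤ 2 * ∏ q ∈ pr ι x, (1 - ((PS.N (some q) : ℕ) : ℝ) ^ (-σ))⁻¹ :=
        mul_le_mul_of_nonneg_right h7 h6
    _ ≤ 2 * (C / (σ - 1)) := mul_le_mul_of_nonneg_left h3 (by norm_num)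
    _ = _ := by ring

omit [DecidableEq ι] in
theorem charB_opt {χ : Option ι → ℝ} {B : ℝ} (h : CharB (fun q => χ (some q)) B)
    (hn : |χ none| ≤ 1) : CharB χ (2 * B) where
  le q := by
    cases q with
    | none => exact hn
    | some q => exact h.le q
  hB := by
    have := h.hB
    linarith
  bound σ h1 h2 := by
    filter_upwards [h.bound σ h1 h2] with x hx
    rw [prod_pr_opt]
    have hpos : ∀ q ∈ pr ι x, (0 : ℝ) ≤ (1 - χ (some q) * ((PS.N (some q) : ℕ) : ℝ) ^ (-σ))⁻¹ := by
      intro q _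
      rw [N_some]
      apply inv_nonneg.2
      have h4 : (1 : ℝ) ≤ (PS.N q : ℝ) := by
        have := PS.two_le q
        exact_mod_cast (by omega)
      have h5 := Real.rpow_le_one_of_one_le_of_nonpos h4 (by linarith : -σ ≤ 0)
      have h6 := abs_le.1 (h.le q)
      have h7 : (0 : ℝ) ≤ (PS.N q : ℝ) ^ (-σ) := by positivity
      have h8 : χ (some q) ≤ 1 := h6.2
      nlinarith
    have h6 : (0 : ℝ) ≤ ∏ q ∈ pr ι x, (1 - χ (some q) * ((PS.N (some q) : ℕ) : ℝ) ^ (-σ))⁻¹ :=
      prod_nonneg hpos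
    have h7 : (if 3 ≤ x then (1 - χ none * ((PS.N (none : Option ι) : ℕ) : ℝ) ^ (-σ))⁻¹ else 1) ≤
        2 := by
      split_ifs
      · exact (factor_le (ι := ι) hn h1).2
      · norm_num
    calc _ ≤ 2 * ∏ q ∈ pr ι x, (1 - χ (some q) * ((PS.N (some q) : ℕ) : ℝ) ^ (-σ))⁻¹ :=
          mul_le_mul_of_nonneg_right h7 h6
      _ ≤ 2 * B := mul_le_mul_of_nonneg_left hx (by norm_num)

/-! ### The larger system -/

/-- The symbols at `none` are the second linear term. -/
def ext (D : Dat3b ι) : Dat3 (Option ι) where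
  s x y := match x, y with
    | some q, some p => D.s q p
    | some q, none => D.b q
    | none, some p => D.b p
    | none, none => 0
  a x := match x with
    | some q => D.a q
    | none => 0

omit [DecidableEq ι] [PS ι] in
theorem sum_split {M : Type*} [AddCommMonoid M] (T : Finset (Option ι)) (f : Option ι → M)
    [Decidable (none ∈ T)] :
    ∑ p ∈ T, f p = (if none ∈ T then f none else 0) + ∑ p ∈ eraseNone T, f (some p) := by
  by_cases h : none ∈ T
  · rw [if_pos h, ← sum_insertNone, ins_erase h]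
  · rw [if_neg h, zero_add, ← sum_mp, mp_erase h]

omit [PS ι] in
theorem ext_ex (D : Dat3b ι) (T : Finset (Option ι)) (t : Option ι → ZMod 3) (c : ZMod 3) (q : ι) :
    (ext D).ex T t c (some q) =
      D.exb (eraseNone T) (fun p => t (some p)) c (if none ∈ T then t none else 0) q := by
  unfold Dat3.ex Dat3b.exb
  rw [sum_split]
  have h : (if none ∈ T then t none * (ext D).s (some q) none else 0) =
      (if none ∈ T then t none else 0) * D.b q := by
    split_ifs
    · rfl
    · rw [zero_mul]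
  rw [h, ← add_assoc]
  rfl

omit [PS ι] in
theorem ext_ch (D : Dat3b ι) (T : Finset (Option ι)) (t : Option ι → ZMod 3) (c : ZMod 3) (q : ι) :
    (ext D).ch T t c (some q) =
      D.chb (eraseNone T) (fun p => t (some p)) c (if none ∈ T then t none else 0) q := by
  unfold Dat3.ch Dat3b.chb
  rw [ext_ex]
  simp only [mem_eraseNone]

omit [PS ι] in
theorem ext_sym {D : Dat3b ι} (h : D.toDat3.Sym) : (ext D).Sym := by
  rintro (_ | p) (_ | q) hpq
  · rfl
  · rfl
  · rfl
  · exact h p q fun e => hpq (congrArg some e)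

omit [PS ι] in
theorem ext_nontriv {T : Finset (Option ι)} {t : Option ι → ZMod 3} {c : ZMod 3}
    (ht : ∀ p ∈ T, t p ≠ 0) (h : T ≠ ∅ ∨ c ≠ 0) :
    eraseNone T ≠ ∅ ∨ c ≠ 0 ∨ (if none ∈ T then t none else 0) ≠ 0 := by
  rcases h with h | h
  · by_cases h0 : none ∈ T
    · right
      right
      rw [if_pos h0]
      exact ht _ h0
    · left
      intro h1
      apply h
      rw [← mp_erase h0, h1]
      rfl
  · exact Or.inr (Or.inl h)

theorem ext_cb {D : Dat3b ι} {C : ℝ} (h : D.CBb C) : (ext D).CB (2 * C) := by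
  intro T t c ht hn
  have h1 := h (eraseNone T) (fun p => t (some p)) c (if none ∈ T then t none else 0)
    (fun p hp => ht _ (mem_eraseNone.1 hp)) (ext_nontriv ht hn)
  have h2 : CharB (fun q => ((ext D).ch T t c q).re)
      (2 * (C * (1 + Real.log (nm (eraseNone T))))) := by
    apply charB_opt
    · have e : (fun q : ι => ((ext D).ch T t c (some q)).re) = fun q =>
          (D.chb (eraseNone T) (fun p => t (some p)) c (if none ∈ T then t none else 0) q).re := by
        funext q
        rw [ext_ch]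
      rw [e]
      exact h1
    · refine (Complex.abs_re_le_norm _).trans ?_
      unfold Dat3.ch
      split_ifs
      · rw [norm_zero]
        exact zero_le_one
      · rw [norm_e3]
  have h3 : (1 : ℝ) ≤ nm (eraseNone T) := by exact_mod_cast one_le_nm _
  have h4 : (nm (eraseNone T) : ℝ) ≤ nm T := by exact_mod_cast nm_erase_le T
  have h5 := Real.log_nonneg h3
  have h6 : Real.log (nm (eraseNone T)) ≤ Real.log (nm T) := Real.log_le_log (by linarith) h4
  have h7 : 0 ≤ C := by
    have := h1.hB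
    by_contra h8
    push Not at h8
    nlinarith
  have hle : 2 * (C * (1 + Real.log (nm (eraseNone T)))) ≤ 2 * C * (1 + Real.log (nm T)) := by
    nlinarith
  exact ⟨h2.le, h2.hB.trans hle, fun σ g1 g2 => (h2.bound σ g1 g2).mono fun x hx => hx.trans hle⟩

theorem ext_h3 {D : Dat3b ι} (h : D.H3b) : (ext D).H3 := by
  classical
  intro B T t c hTB ht hn ε hε
  obtain ⟨X₁, hX₁⟩ := h (eraseNone B) (eraseNone T) (fun p => t (some p)) c
    (if none ∈ T then t none else 0)
    (fun p hp => mem_eraseNone.2 (hTB (mem_eraseNone.1 hp)))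
    (fun p hp => ht _ (mem_eraseNone.1 hp)) (ext_nontriv ht hn) (ε / 2) (by positivity)
  refine ⟨3 * X₁ + 3, fun X hX => ?_⟩
  rw [sum_filter, sum_Sx_opt]
  have h1 : ∀ Y : ℕ, X₁ ≤ Y → ‖∑ S ∈ Sx ι Y, (if Disjoint S (eraseNone B) then
      ∏ q ∈ S, e3 ((ext D).ex T t c (some q)) else 0)‖ ≤ ε / 2 * Y := by
    intro Y hY
    have h2 := hX₁ Y hY
    rw [sum_filter] at h2
    simp only [ext_ex]
    exact h2
  have e1 : ∑ S ∈ Sx ι X, (if Disjoint (mp S) B then ∏ q ∈ mp S, e3 ((ext D).ex T t c q) else 0) =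
      ∑ S ∈ Sx ι X, (if Disjoint S (eraseNone B) then
      ∏ q ∈ S, e3 ((ext D).ex T t c (some q)) else 0) := by
    refine sum_congr rfl fun S _ => ?_
    rw [prod_mp]
    exact if_congr mp_disj_iff rfl rfl
  have e2 : ‖∑ S ∈ Sx ι (X / 3), (if Disjoint (insertNone S) B then
      ∏ q ∈ insertNone S, e3 ((ext D).ex T t c q) else 0)‖ ≤ ε / 2 * X := by
    by_cases h0 : none ∈ B
    · rw [sum_eq_zero, norm_zero]
      · positivity
      · intro S _
        rw [if_neg]
        rw [ins_disj_iff]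
        exact fun h2 => h2.1 h0
    · have e3' : ∑ S ∈ Sx ι (X / 3), (if Disjoint (insertNone S) B then
          ∏ q ∈ insertNone S, e3 ((ext D).ex T t c q) else 0) =
          e3 ((ext D).ex T t c none) * ∑ S ∈ Sx ι (X / 3), (if Disjoint S (eraseNone B) then
            ∏ q ∈ S, e3 ((ext D).ex T t c (some q)) else 0) := by
        rw [mul_sum]
        refine sum_congr rfl fun S _ => ?_
        rw [prod_insertNone, mul_ite, mul_zero]
        refine if_congr ?_ rfl rfl
        rw [ins_disj_iff]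
        exact and_iff_right h0
      rw [e3', norm_mul, norm_e3, one_mul]
      refine (h1 _ (by omega)).trans ?_
      have : ((X / 3 : ℕ) : ℝ) ≤ X := by exact_mod_cast Nat.div_le_self X 3
      exact mul_le_mul_of_nonneg_left this (by positivity)
  rw [e1]
  refine (norm_add_le _ _).trans ?_
  have h2 := h1 X (by omega)
  linarith

/-- A bilinear sum without the conditions on the sizes. -/
theorem bl_piece {D : Dat3 ι} {C c : ℝ} {K : ℕ} (hBL : D.BL C K c) {C₂ : ℝ}
    (hC₂ : ∀ Y : ℕ, ((Sx ι Y).card : ℝ) ≤ C₂ * Y) (α β : Finset ι → ℂ) (hα : ∀ S, ‖α S‖ ≤ 1)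
    (hβ : ∀ S, ‖β S‖ ≤ 1) (X : ℕ) (hX : 2 ≤ X) (V : ℝ) (hV : 1 ≤ V)
    (h1 : ∀ S, S ≠ ∅ → α S ≠ 0 → V < nm S) (h2 : ∀ S, S ≠ ∅ → β S ≠ 0 → V < nm S)
    (h3 : α ∅ ≠ 0 ∨ β ∅ ≠ 0 → V = 1) :
    ‖∑ S ∈ Sx ι X, ∑ T ∈ Sx ι X, if nm S * nm T ≤ X ∧ Disjoint S T then
      α S * β T * e3 (D.ss S T) else 0‖ ≤
      (C + 2 * C₂) * X * (1 + Real.log X) ^ K * V ^ (-c) := by
  classical
  have hC₂0 : 0 ≤ C₂ := by
    have := hC₂ 1
    have h4 : (0 : ℝ) ≤ ((Sx ι 1).card : ℝ) := Nat.cast_nonneg _
    simp only [Nat.cast_one, mul_one] at this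
    linarith
  have hV0 : (0 : ℝ) < V := by linarith
  have hL : (1 : ℝ) ≤ (1 + Real.log X) ^ K := by
    apply one_le_pow₀
    have : 0 ≤ Real.log X := Real.log_natCast_nonneg X
    linarith
  set g : Finset ι → Finset ι → ℂ := fun S T => if nm S * nm T ≤ X ∧ Disjoint S T then
      α S * β T * e3 (D.ss S T) else 0 with hg
  have hgle : ∀ S T, ‖g S T‖ ≤ 1 := by
    intro S T
    rw [hg]
    dsimp only
    split_ifs
    · rw [norm_mul, norm_mul, norm_e3, mul_one]
      calc ‖α S‖ * ‖β T‖ ≤ 1 * 1 := mul_le_mul (hα S) (hβ T) (norm_nonneg _) zero_le_one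
        _ = 1 := one_mul 1
    · rw [norm_zero]
      exact zero_le_one
  have key : ∀ S T, g S T = (if nm S * nm T ≤ X ∧ V < nm S ∧ V < nm T ∧ Disjoint S T then
      α S * β T * e3 (D.ss S T) else 0) + (if S = ∅ ∨ T = ∅ then g S T else 0) := by
    intro S T
    by_cases h0 : S = ∅ ∨ T = ∅
    · rw [if_pos h0, if_neg, zero_add]
      rintro ⟨-, h4, h5, -⟩
      rcases h0 with rfl | rfl
      · rw [nm_empty] at h4
        push_cast at h4
        linarith
      · rw [nm_empty] at h5
        push_cast at h5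
        linarith
    · rw [if_neg h0, add_zero, hg]
      dsimp only
      push Not at h0
      by_cases hz : α S = 0 ∨ β T = 0
      · have e : α S * β T * e3 (D.ss S T) = 0 := by
          rcases hz with hz | hz <;> rw [hz] <;> ring
        rw [e, ite_self, ite_self]
      · push Not at hz
        refine if_congr ?_ rfl rfl
        constructor
        · rintro ⟨h4, h5⟩
          exact ⟨h4, h1 S h0.1.ne_empty hz.1, h2 T h0.2.ne_empty hz.2, h5⟩
        · rintro ⟨h4, -, -, h5⟩
          exact ⟨h4, h5⟩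
  have hsum : ∑ S ∈ Sx ι X, ∑ T ∈ Sx ι X, g S T =
      ∑ S ∈ Sx ι X, ∑ T ∈ Sx ι X, (if nm S * nm T ≤ X ∧ V < nm S ∧ V < nm T ∧ Disjoint S T then
      α S * β T * e3 (D.ss S T) else 0) +
      ∑ S ∈ Sx ι X, ∑ T ∈ Sx ι X, (if S = ∅ ∨ T = ∅ then g S T else 0) := by
    rw [← sum_add_distrib]
    refine sum_congr rfl fun S _ => ?_
    rw [← sum_add_distrib]
    exact sum_congr rfl fun T _ => key S T
  have hb := hBL α β X V hα hβ hV hX
  have hrest : ‖∑ S ∈ Sx ι X, ∑ T ∈ Sx ι X, (if S = ∅ ∨ T = ∅ then g S T else 0)‖ ≤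
      2 * C₂ * X * (1 + Real.log X) ^ K * V ^ (-c) := by
    by_cases hV1 : V = 1
    · have h4 : ∀ S ∈ Sx ι X, ∀ T ∈ Sx ι X, ‖(if S = ∅ ∨ T = ∅ then g S T else 0 : ℂ)‖ ≤
          (if S = ∅ then (1 : ℝ) else 0) + (if T = ∅ then (1 : ℝ) else 0) := by
        intro S _ T _
        by_cases hS : S = ∅
        · rw [if_pos (Or.inl hS), if_pos hS]
          have := hgle S T
          split_ifs <;> linarith
        · by_cases hT : T = ∅
          · rw [if_pos (Or.inr hT), if_neg hS, if_pos hT]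
            have := hgle S T
            linarith
          · rw [if_neg (by tauto), if_neg hS, if_neg hT]
            simp
      have h5 : ‖∑ S ∈ Sx ι X, ∑ T ∈ Sx ι X, (if S = ∅ ∨ T = ∅ then g S T else 0)‖ ≤
          ∑ S ∈ Sx ι X, ∑ T ∈ Sx ι X,
            ((if S = ∅ then (1 : ℝ) else 0) + (if T = ∅ then (1 : ℝ) else 0)) := by
        refine (norm_sum_le _ _).trans (sum_le_sum fun S hS => ?_)
        exact (norm_sum_le _ _).trans (sum_le_sum fun T hT => h4 S hS T hT)
      have h6 : ∑ S ∈ Sx ι X, ∑ T ∈ Sx ι X,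
            ((if S = ∅ then (1 : ℝ) else 0) + (if T = ∅ then (1 : ℝ) else 0)) ≤
          2 * ((Sx ι X).card : ℝ) := by
        simp only [sum_add_distrib, sum_const, sum_ite_eq', nsmul_eq_mul]
        rw [← mul_sum]
        simp only [sum_ite_eq']
        have : (if ∅ ∈ Sx ι X then (1 : ℝ) else 0) ≤ 1 := by split_ifs <;> norm_num
        have h7 : (0 : ℝ) ≤ ((Sx ι X).card : ℝ) := Nat.cast_nonneg _
        nlinarith
      rw [hV1, Real.one_rpow, mul_one]
      have h7 := hC₂ X
      have h8 : 2 * C₂ * X * 1 ≤ 2 * C₂ * X * (1 + Real.log X) ^ K :=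
        mul_le_mul_of_nonneg_left hL (by positivity)
      linarith
    · have h4 : α ∅ = 0 ∧ β ∅ = 0 := by
        by_contra h5
        apply hV1
        apply h3
        tauto
      have h5 : ∑ S ∈ Sx ι X, ∑ T ∈ Sx ι X, (if S = ∅ ∨ T = ∅ then g S T else 0) = 0 := by
        refine sum_eq_zero fun S _ => sum_eq_zero fun T _ => ?_
        by_cases h0 : S = ∅ ∨ T = ∅
        · rw [if_pos h0, hg]
          dsimp only
          have e : α S * β T * e3 (D.ss S T) = 0 := by
            rcases h0 with rfl | rfl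
            · rw [h4.1]; ring
            · rw [h4.2]; ring
          rw [e, ite_self]
        · rw [if_neg h0]
      rw [h5, norm_zero]
      have : (0 : ℝ) < V ^ (-c) := Real.rpow_pos_of_pos hV0 _
      positivity
  change ‖∑ S ∈ Sx ι X, ∑ T ∈ Sx ι X, g S T‖ ≤ _
  rw [hsum]
  refine (norm_add_le _ _).trans ?_
  have : (C + 2 * C₂) * X * (1 + Real.log X) ^ K * V ^ (-c) =
      C * X * (1 + Real.log X) ^ K * V ^ (-c) +
      2 * C₂ * X * (1 + Real.log X) ^ K * V ^ (-c) := by ring
  rw [this]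
  exact add_le_add hb hrest

omit [DecidableEq ι] [PS ι] in
theorem ext_ss (D : Dat3b ι) (S T : Finset ι) : (ext D).ss (mp S) (mp T) = D.ss S T := by
  unfold Dat3.ss
  rw [sum_mp]
  refine sum_congr rfl fun q _ => ?_
  rw [sum_mp]
  rfl

omit [DecidableEq ι] [PS ι] in
theorem ext_ss_ins_right (D : Dat3b ι) (S T : Finset ι) :
    (ext D).ss (mp S) (insertNone T) = ∑ q ∈ S, D.b q + D.ss S T := by
  unfold Dat3.ss
  rw [sum_mp, ← sum_add_distrib]
  refine sum_congr rfl fun q _ => ?_
  rw [sum_insertNone]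
  rfl

omit [DecidableEq ι] [PS ι] in
theorem ext_ss_ins_left (D : Dat3b ι) (S T : Finset ι) :
    (ext D).ss (insertNone S) (mp T) = ∑ p ∈ T, D.b p + D.ss S T := by
  unfold Dat3.ss
  rw [sum_insertNone, sum_mp]
  congr 1
  refine sum_congr rfl fun q _ => ?_
  rw [sum_mp]
  rfl

/-- The bound for a mixed part of the bilinear sum. -/
theorem bl_mixed {D : Dat3 ι} {C c : ℝ} {K : ℕ} (hc : 0 < c) (hBL : D.BL C K c) {C₂ : ℝ}
    (hC₂ : ∀ Y : ℕ, ((Sx ι Y).card : ℝ) ≤ C₂ * Y) (α β : Finset ι → ℂ) (hα : ∀ S, ‖α S‖ ≤ 1)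
    (hβ : ∀ S, ‖β S‖ ≤ 1) (X : ℕ) (V : ℝ) (hV : 1 ≤ V)
    (h1 : ∀ S, α S ≠ 0 → V < 3 * nm S) (h2 : ∀ S, β S ≠ 0 → V < 3 * nm S)
    (h3 : α ∅ = 0 ∨ β ∅ = 0) :
    ‖∑ S ∈ Sx ι (X / 3), ∑ T ∈ Sx ι (X / 3), if nm S * nm T ≤ X / 3 ∧ Disjoint S T then
      α S * β T * e3 (D.ss S T) else 0‖ ≤
      (C + 2 * C₂) * 3 ^ c * X * (1 + Real.log X) ^ K * V ^ (-c) := by
  classical
  have hC₂0 : 0 ≤ C₂ := by
    have := hC₂ 1
    have h4 : (0 : ℝ) ≤ ((Sx ι 1).card : ℝ) := Nat.cast_nonneg _
    simp only [Nat.cast_one, mul_one] at this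
    linarith
  have hC0 : 0 ≤ C := by
    have h4 := hBL (fun _ => 0) (fun _ => 0) 2 1 (by simp) (by simp) le_rfl le_rfl
    simp only [mul_zero, zero_mul, ite_self, sum_const_zero, norm_zero, Real.one_rpow, mul_one] at h4
    by_contra h5
    push Not at h5
    have h6 : 0 < (1 + Real.log ((2 : ℕ) : ℝ)) ^ K := by
      have : 0 ≤ Real.log ((2 : ℕ) : ℝ) := Real.log_natCast_nonneg 2
      positivity
    push_cast at h4 h6
    nlinarith
  have hV0 : (0 : ℝ) < V := by linarith
  have hL : (0 : ℝ) ≤ 1 + Real.log X := by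
    have : 0 ≤ Real.log X := Real.log_natCast_nonneg X
    linarith
  have h3c : (0 : ℝ) < 3 ^ c := by positivity
  have hVc : (0 : ℝ) < V ^ (-c) := Real.rpow_pos_of_pos hV0 _
  by_cases hX : 2 ≤ X / 3
  · have hW : ∀ S : Finset ι, V < 3 * nm S → V / 3 < nm S := fun S h => by linarith
    have h4 := bl_piece hBL hC₂ α β hα hβ (X / 3) hX (max 1 (V / 3)) (le_max_left _ _)
      (fun S hS hz => by
        rw [max_lt_iff]
        refine ⟨?_, hW S (h1 S hz)⟩
        obtain ⟨q, hq⟩ := nonempty_iff_ne_empty.2 hS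
        have h5 := le_nm hq
        have h6 := PS.two_le q
        exact_mod_cast (by omega : 1 < nm S))
      (fun S hS hz => by
        rw [max_lt_iff]
        refine ⟨?_, hW S (h2 S hz)⟩
        obtain ⟨q, hq⟩ := nonempty_iff_ne_empty.2 hS
        have h5 := le_nm hq
        have h6 := PS.two_le q
        exact_mod_cast (by omega : 1 < nm S))
      (fun h => by
        rw [max_eq_left_iff]
        rcases h with h | h
        · have h5 := h1 _ h
          rw [nm_empty] at h5
          push_cast at h5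
          linarith
        · have h5 := h2 _ h
          rw [nm_empty] at h5
          push_cast at h5
          linarith)
    refine h4.trans ?_
    have h5 : (max 1 (V / 3)) ^ (-c) ≤ 3 ^ c * V ^ (-c) := by
      calc (max 1 (V / 3)) ^ (-c) ≤ (V / 3) ^ (-c) := by
            apply Real.rpow_le_rpow_of_nonpos (by positivity) (le_max_right _ _) (by linarith)
        _ = 3 ^ c * V ^ (-c) := by
            rw [Real.div_rpow hV0.le (by norm_num), Real.rpow_neg (by norm_num : (0 : ℝ) ≤ 3), div_inv_eq_mul,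
              mul_comm]
    have hXr : ((X / 3 : ℕ) : ℝ) ≤ X := by exact_mod_cast Nat.div_le_self X 3
    have hXpos : (0 : ℝ) < ((X / 3 : ℕ) : ℝ) := by exact_mod_cast (by omega : 0 < X / 3)
    have h6 : (1 + Real.log ((X / 3 : ℕ) : ℝ)) ^ K ≤ (1 + Real.log X) ^ K := by
      have h7 : Real.log ((X / 3 : ℕ) : ℝ) ≤ Real.log X := Real.log_le_log hXpos hXr
      have h8 : 0 ≤ Real.log ((X / 3 : ℕ) : ℝ) := Real.log_natCast_nonneg _
      exact pow_le_pow_left₀ (by linarith) (by linarith) K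
    have h7 : (0 : ℝ) ≤ (1 + Real.log ((X / 3 : ℕ) : ℝ)) ^ K := by
      have h8 : 0 ≤ Real.log ((X / 3 : ℕ) : ℝ) := Real.log_natCast_nonneg _
      positivity
    have h8 : (0 : ℝ) ≤ C + 2 * C₂ := by positivity
    calc (C + 2 * C₂) * ((X / 3 : ℕ) : ℝ) * (1 + Real.log ((X / 3 : ℕ) : ℝ)) ^ K *
          (max 1 (V / 3)) ^ (-c)
        ≤ (C + 2 * C₂) * X * (1 + Real.log X) ^ K * (3 ^ c * V ^ (-c)) := by
          apply mul_le_mul _ h5 (Real.rpow_nonneg (by positivity) _) (by positivity)
          exact mul_le_mul (mul_le_mul_of_nonneg_left hXr h8) h6 h7 (by positivity)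
      _ = _ := by ring
  · rw [sum_eq_zero, norm_zero]
    · positivity
    · intro S _
      refine sum_eq_zero fun T _ => ?_
      split_ifs with h5
      · have h6 : nm S = 1 ∧ nm T = 1 := by
          have h7 := one_le_nm S
          have h8 := one_le_nm T
          have h9 : nm S * nm T ≤ 1 := by omega
          have h10 := Nat.le_of_mul_le_mul_left (show nm S * nm T ≤ nm S * 1 by omega) (by omega)
          have h11 := Nat.le_of_mul_le_mul_right (show nm S * nm T ≤ 1 * nm T by omega) (by omega)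
          omega
        have h7 : ∀ R : Finset ι, nm R = 1 → R = ∅ := by
          intro R hR
          by_contra h8
          obtain ⟨q, hq⟩ := nonempty_iff_ne_empty.2 h8
          have h9 := le_nm hq
          have h10 := PS.two_le q
          omega
        rw [h7 S h6.1, h7 T h6.2]
        rcases h3 with h3 | h3 <;> rw [h3] <;> ring
      · rfl

theorem ext_bl {D : Dat3b ι} {C c : ℝ} {K : ℕ} (hc : 0 < c) (hBL : D.toDat3.BL C K c) {C₂ : ℝ}
    (hC₂ : ∀ Y : ℕ, ((Sx ι Y).card : ℝ) ≤ C₂ * Y) :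
    (ext D).BL (C + 2 * ((C + 2 * C₂) * 3 ^ c)) K c := by
  classical
  intro A B X V hA hB hV hX
  set f : Finset (Option ι) → Finset (Option ι) → ℂ := fun S T =>
    if nm S * nm T ≤ X ∧ V < nm S ∧ V < nm T ∧ Disjoint S T then
        A S * B T * e3 ((ext D).ss S T) else 0 with hf
  change ‖∑ S ∈ Sx (Option ι) X, ∑ T ∈ Sx (Option ι) X, f S T‖ ≤ _
  rw [sum_Sx_opt]
  simp only [sum_Sx_opt]
  rw [sum_add_distrib, sum_add_distrib]
  -- both with `none`
  have e11 : ∑ S ∈ Sx ι (X / 3), ∑ T ∈ Sx ι (X / 3), f (insertNone S) (insertNone T) = 0 := by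
    refine sum_eq_zero fun S _ => sum_eq_zero fun T _ => ?_
    rw [hf]
    dsimp only
    rw [if_neg]
    rintro ⟨-, -, -, h⟩
    exact (disjoint_left.1 h none_mem_insertNone) none_mem_insertNone
  -- both without `none`
  have e00 : ‖∑ S ∈ Sx ι X, ∑ T ∈ Sx ι X, f (mp S) (mp T)‖ ≤
      C * X * (1 + Real.log X) ^ K * V ^ (-c) := by
    have h := hBL (fun S => A (mp S)) (fun T => B (mp T)) X V (fun _ => hA _) (fun _ => hB _) hV hX
    refine le_trans (le_of_eq ?_) h
    congr 1
    refine sum_congr rfl fun S _ => sum_congr rfl fun T _ => ?_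
    rw [hf]
    dsimp only
    rw [ext_ss, nm_mp, nm_mp]
    refine if_congr ?_ rfl rfl
    rw [mp_disj]
  have hle3 : ∀ S T : Finset ι, nm S * nm T ≤ X / 3 ↔ 3 * (nm S * nm T) ≤ X := by
    intro S T
    rw [Nat.le_div_iff_mul_le (by norm_num), mul_comm]
  have e01 : ‖∑ S ∈ Sx ι X, ∑ T ∈ Sx ι (X / 3), f (mp S) (insertNone T)‖ ≤
      (C + 2 * C₂) * 3 ^ c * X * (1 + Real.log X) ^ K * V ^ (-c) := by
    have h := bl_mixed hc hBL hC₂ (fun S => if V < nm S then A (mp S) * e3 (∑ q ∈ S, D.b q) else 0)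
      (fun T => if V < 3 * nm T then B (insertNone T) else 0)
      (fun S => by
        split_ifs
        · rw [norm_mul, norm_e3, mul_one]
          exact hA _
        · rw [norm_zero]
          exact zero_le_one)
      (fun T => by
        split_ifs
        · exact hB _
        · rw [norm_zero]
          exact zero_le_one) X V hV
      (fun S hS => by
        by_cases h1 : V < nm S
        · have : (0 : ℝ) ≤ nm S := Nat.cast_nonneg _
          linarith
        · exact absurd (if_neg h1) hS)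
      (fun T hT => by
        by_contra h1
        exact hT (if_neg h1))
      (Or.inl (by
        rw [nm_empty]
        apply if_neg
        push_cast
        linarith))
    refine le_trans (le_of_eq ?_) h
    congr 1
    have hsub : Sx ι (X / 3) ⊆ Sx ι X := fun S hS =>
      mem_Sx.2 ((mem_Sx.1 hS).trans (Nat.div_le_self X 3))
    rw [← sum_subset hsub]
    · refine sum_congr rfl fun S _ => sum_congr rfl fun T _ => ?_
      rw [hf]
      dsimp only
      have hd : Disjoint (mp S) (insertNone T) ↔ Disjoint S T := by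
        rw [mp_disj_iff, erase_ins]
      have hcond : (nm (mp S) * nm (insertNone T) ≤ X ∧ V < (nm (mp S) : ℝ) ∧
          V < (nm (insertNone T) : ℝ) ∧ Disjoint (mp S) (insertNone T)) ↔
          ((nm S * nm T ≤ X / 3 ∧ Disjoint S T) ∧ V < (nm S : ℝ) ∧ V < 3 * (nm T : ℝ)) := by
        have hm : nm S * (3 * nm T) = 3 * (nm S * nm T) := by ring
        rw [hd, nm_mp, nm_ins, hle3, hm]
        push_cast
        tauto
      rw [ext_ss_ins_right, e3_add]
      by_cases h4 : nm S * nm T ≤ X / 3 ∧ Disjoint S T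
      · rw [if_pos h4]
        by_cases h1 : V < (nm S : ℝ)
        · by_cases h2 : V < 3 * (nm T : ℝ)
          · rw [if_pos (hcond.2 ⟨h4, h1, h2⟩), if_pos h1, if_pos h2]
            ring
          · rw [if_neg (fun h5 => h2 (hcond.1 h5).2.2), if_neg h2, mul_zero, zero_mul]
        · rw [if_neg (fun h5 => h1 (hcond.1 h5).2.1), if_neg h1, zero_mul, zero_mul]
      · rw [if_neg (fun h5 => h4 (hcond.1 h5).1), if_neg h4]
    · intro S _ hS
      refine sum_eq_zero fun T _ => ?_
      rw [hf]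
      dsimp only
      rw [if_neg]
      rintro ⟨h1, -⟩
      apply hS
      rw [mem_Sx, Nat.le_div_iff_mul_le (by norm_num)]
      rw [nm_mp, nm_ins] at h1
      have h2 := one_le_nm T
      calc nm S * 3 = nm S * (3 * 1) := by ring
        _ ≤ nm S * (3 * nm T) := Nat.mul_le_mul_left _ (Nat.mul_le_mul_left _ h2)
        _ ≤ X := h1
  have e10 : ‖∑ S ∈ Sx ι (X / 3), ∑ T ∈ Sx ι X, f (insertNone S) (mp T)‖ ≤
      (C + 2 * C₂) * 3 ^ c * X * (1 + Real.log X) ^ K * V ^ (-c) := by
    have h := bl_mixed hc hBL hC₂ (fun S => if V < 3 * nm S then A (insertNone S) else 0)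
      (fun T => if V < nm T then B (mp T) * e3 (∑ p ∈ T, D.b p) else 0)
      (fun T => by
        split_ifs
        · exact hA _
        · rw [norm_zero]
          exact zero_le_one)
      (fun S => by
        split_ifs
        · rw [norm_mul, norm_e3, mul_one]
          exact hB _
        · rw [norm_zero]
          exact zero_le_one) X V hV
      (fun T hT => by
        by_contra h1
        exact hT (if_neg h1))
      (fun S hS => by
        by_cases h1 : V < nm S
        · have : (0 : ℝ) ≤ nm S := Nat.cast_nonneg _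
          linarith
        · exact absurd (if_neg h1) hS)
      (Or.inr (by
        rw [nm_empty]
        apply if_neg
        push_cast
        linarith))
    refine le_trans (le_of_eq ?_) h
    congr 1
    have hsub : Sx ι (X / 3) ⊆ Sx ι X := fun S hS =>
      mem_Sx.2 ((mem_Sx.1 hS).trans (Nat.div_le_self X 3))
    refine sum_congr rfl fun S _ => ?_
    rw [← sum_subset hsub]
    · refine sum_congr rfl fun T _ => ?_
      rw [hf]
      dsimp only
      have hd : Disjoint (insertNone S) (mp T) ↔ Disjoint S T := by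
        rw [disjoint_comm, mp_disj_iff, erase_ins, disjoint_comm]
      have hcond : (nm (insertNone S) * nm (mp T) ≤ X ∧ V < (nm (insertNone S) : ℝ) ∧
          V < (nm (mp T) : ℝ) ∧ Disjoint (insertNone S) (mp T)) ↔
          ((nm S * nm T ≤ X / 3 ∧ Disjoint S T) ∧ V < 3 * (nm S : ℝ) ∧ V < (nm T : ℝ)) := by
        have hm : 3 * nm S * nm T = 3 * (nm S * nm T) := by ring
        rw [hd, nm_mp, nm_ins, hle3, hm]
        push_cast
        tauto
      rw [ext_ss_ins_left, e3_add]
      by_cases h4 : nm S * nm T ≤ X / 3 ∧ Disjoint S T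
      · rw [if_pos h4]
        by_cases h1 : V < 3 * (nm S : ℝ)
        · by_cases h2 : V < (nm T : ℝ)
          · rw [if_pos (hcond.2 ⟨h4, h1, h2⟩), if_pos h1, if_pos h2]
            ring
          · rw [if_neg (fun h5 => h2 (hcond.1 h5).2.2), if_neg h2, mul_zero, zero_mul]
        · rw [if_neg (fun h5 => h1 (hcond.1 h5).2.1), if_neg h1, zero_mul, zero_mul]
      · rw [if_neg (fun h5 => h4 (hcond.1 h5).1), if_neg h4]
    · intro T _ hT
      rw [hf]
      dsimp only
      rw [if_neg]
      rintro ⟨h1, -⟩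
      apply hT
      rw [mem_Sx, Nat.le_div_iff_mul_le (by norm_num)]
      rw [nm_mp, nm_ins] at h1
      have h2 := one_le_nm S
      calc nm T * 3 = 3 * 1 * nm T := by ring
        _ ≤ 3 * nm S * nm T := Nat.mul_le_mul_right _ (Nat.mul_le_mul_left _ h2)
        _ ≤ X := h1
  rw [e11, add_zero]
  refine (norm_add_le _ _).trans ?_
  have h1 := norm_add_le (∑ S ∈ Sx ι X, ∑ T ∈ Sx ι X, f (mp S) (mp T))
    (∑ S ∈ Sx ι X, ∑ T ∈ Sx ι (X / 3), f (mp S) (insertNone T))
  have h2 : (C + 2 * ((C + 2 * C₂) * 3 ^ c)) * X * (1 + Real.log X) ^ K * V ^ (-c) =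
      C * X * (1 + Real.log X) ^ K * V ^ (-c) +
      (C + 2 * C₂) * 3 ^ c * X * (1 + Real.log X) ^ K * V ^ (-c) +
      (C + 2 * C₂) * 3 ^ c * X * (1 + Real.log X) ^ K * V ^ (-c) := by ring
  rw [h2]
  linarith

/-- **The larger system satisfies all the hypotheses.** -/
theorem ext_OK {D : Dat3b ι} (h : D.OKb) {C₂ : ℝ} (hC₂ : ∀ Y : ℕ, ((Sx ι Y).card : ℝ) ≤ C₂ * Y) :
    (ext D).OK where
  sym := ext_sym h.ok.sym
  cheb := by
    obtain ⟨C, hC⟩ := h.ok.cheb
    exact ⟨_, cheb_opt hC⟩
  zt := by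
    obtain ⟨C, hC⟩ := h.ok.zt
    exact ⟨_, zt_opt hC⟩
  cb := by
    obtain ⟨C, hC⟩ := h.cbb
    exact ⟨_, ext_cb hC⟩
  h3 := ext_h3 h.h3b
  bl := by
    obtain ⟨C, K, c, hc, hC⟩ := h.ok.bl
    exact ⟨_, K, c, hc, ext_bl hc hC hC₂⟩

end

end

end Pool.Agent.Lib.MP_1a91b9_ntK2
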